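import Pool.Agent.H67.OL.Defs

set_option autoImplicit false

namespace H67OL

variable {α : Type} [LinearOrder α]
set_option linter.unusedSectionVars false

/-- strongly less: the words differ at a position where both have a letter -/
def SL (u v : List α) : Prop :=
  ∃ (n : ℕ) (a b : α), (∀ i < n, u[i]? = v[i]?) ∧ u[n]? = some a ∧ v[n]? = some b ∧ a < b

theorem lt_iff_SL (u v : List α) : u < v ↔ SL u v ∨ ∃ s, s ≠ [] ∧ v = u ++ s := by
  induction u generalizing v with
  | nil =>
    cases v with
    | nil => simp [SL]
    | cons b v => simp [SL]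
  | cons a u ih =>
    cases v with
    | nil => simp [SL]
    | cons b v =>
      rw [List.cons_lt_cons_iff, ih]
      constructor
      · rintro (h | ⟨rfl, h | ⟨s, hs, rfl⟩⟩)
        · left
          exact ⟨0, a, b, by simp, by simp, by simp, h⟩
        · left
          obtain ⟨n, c, e, h1, h2, h3, h4⟩ := h
          refine ⟨n + 1, c, e, ?_, by simpa using h2, by simpa using h3, h4⟩
          intro i hi
          cases i with
          | zero => simp
          | succ i => simpa using h1 i (by omega)
        · right
          exact ⟨s, hs, by simp⟩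
      · rintro (⟨n, c, e, h1, h2, h3, h4⟩ | ⟨s, hs, h⟩)
        · cases n with
          | zero =>
            simp at h2 h3
            subst h2; subst h3
            exact Or.inl h4
          | succ n =>
            right
            have h0 := h1 0 (by omega)
            simp at h0
            refine ⟨h0, Or.inl ⟨n, c, e, ?_, by simpa using h2, by simpa using h3, h4⟩⟩
            intro i hi
            simpa using h1 (i + 1) (by omega)
        · right
          simp at h
          exact ⟨h.1.symm, Or.inr ⟨s, hs, h.2⟩⟩

theorem SL.lt {u v : List α} (h : SL u v) : u < v := (lt_iff_SL u v).2 (Or.inl h)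

theorem SL.append {u v : List α} (h : SL u v) (x y : List α) : SL (u ++ x) (v ++ y) := by
  obtain ⟨n, a, b, h1, h2, h3, h4⟩ := h
  have hu : n < u.length := by
    by_contra hc
    rw [List.getElem?_eq_none (by omega)] at h2
    exact absurd h2 (by simp)
  have hv : n < v.length := by
    by_contra hc
    rw [List.getElem?_eq_none (by omega)] at h3
    exact absurd h3 (by simp)
  refine ⟨n, a, b, ?_, ?_, ?_, h4⟩
  · intro i hi
    rw [List.getElem?_append_left (by omega), List.getElem?_append_left (by omega)]
    exact h1 i hi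
  · rw [List.getElem?_append_left hu]; exact h2
  · rw [List.getElem?_append_left hv]; exact h3

theorem SL_of_lt_of_length {u v : List α} (h : u < v) (hl : v.length ≤ u.length) : SL u v := by
  rcases (lt_iff_SL u v).1 h with h | ⟨s, hs, rfl⟩
  · exact h
  · exfalso
    rw [List.length_append] at hl
    exact hs (List.length_eq_zero_iff.1 (by omega))

theorem lt_append_of_ne_nil (u : List α) {s : List α} (hs : s ≠ []) : u < u ++ s :=
  (lt_iff_SL _ _).2 (Or.inr ⟨s, hs, rfl⟩)

theorem le_append (u s : List α) : u ≤ u ++ s := by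
  by_cases h : s = []
  · subst h; simp
  · exact (lt_append_of_ne_nil u h).le

theorem append_left_lt' {u v : List α} (p : List α) (h : u < v) : p ++ u < p ++ v :=
  List.append_left_lt h

/-- F2 -/
theorem Lyn.append {u v : List α} (hu : Lyn u) (hv : Lyn v) (h : u < v) : Lyn (u ++ v) := by
  have key : u ++ v < v := by
    rcases (lt_iff_SL u v).1 h with h | ⟨t, ht, rfl⟩
    · have := (h.append v []).lt
      simpa using this
    · exact append_left_lt' u (hv.2 u t hu.1 ht rfl)
  refine ⟨by simp [hu.1], ?_⟩
  intro x y hx hy hxy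
  rcases List.append_eq_append_iff.1 hxy with ⟨s, h1, h2⟩ | ⟨s, h1, h2⟩
  · -- x = u ++ s, v = s ++ y
    by_cases hs : s = []
    · subst hs
      simp at h2
      subst h2
      exact key
    · exact key.trans (hv.2 s y hs hy h2)
  · -- u = x ++ s, y = s ++ v
    by_cases hs : s = []
    · subst hs
      simp at h2
      subst h2
      exact key
    · have h3 : u < s := hu.2 x s hx hs h1
      have h4 : SL u s := SL_of_lt_of_length h3 (by rw [h1]; simp)
      rw [h2]
      exact (h4.append v v).lt

theorem t_F2 : S_F2 := by
  intro α _ u v hu hv h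
  exact hu.append hv h

theorem Lyn.lt_swap {u v : List α} (hu : Lyn u) (hv : Lyn v) (h : u < v) : u ++ v < v ++ u :=
  ((hu.append hv h).2 u v hu.1 hv.1 rfl).trans_le (le_append v u)

theorem Lyn_singleton (a : α) : Lyn [a] := by
  refine ⟨by simp, ?_⟩
  intro u v hu hv h
  exfalso
  have := congrArg List.length h
  simp at this
  have h1 : 0 < u.length := List.length_pos_iff.2 hu
  have h2 : 0 < v.length := List.length_pos_iff.2 hv
  omega

/-! ### Parsing against the own prefixes -/

/-- the word of a letter of the derived alphabet -/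
def wd (m : List α) (z : ℕᵒᵈ ×ₗ α) : List α :=
  m.take (OrderDual.ofDual (ofLex z).1) ++ [(ofLex z).2]

/-- the letter is admissible -/
def ok (m : List α) (z : ℕᵒᵈ ×ₗ α) : Prop :=
  ∃ b, m[OrderDual.ofDual (ofLex z).1]? = some b ∧ b < (ofLex z).2

/-- the word of a word of the derived alphabet -/
def fl (m : List α) (vs : List (ℕᵒᵈ ×ₗ α)) : List α := (vs.map (wd m)).flatten

@[simp] theorem fl_nil (m : List α) : fl m [] = [] := rfl
@[simp] theorem fl_cons (m : List α) (z) (vs : List (ℕᵒᵈ ×ₗ α)) : fl m (z :: vs) = wd m z ++ fl m vs := by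
  simp [fl]
@[simp] theorem fl_append (m : List α) (vs ws : List (ℕᵒᵈ ×ₗ α)) :
    fl m (vs ++ ws) = fl m vs ++ fl m ws := by
  simp [fl]

theorem wd_ne_nil (m : List α) (z : ℕᵒᵈ ×ₗ α) : wd m z ≠ [] := by simp [wd]

theorem fl_flatten (m : List α) (F : List (List (ℕᵒᵈ ×ₗ α))) :
    fl m F.flatten = (F.map (fl m)).flatten := by
  induction F with
  | nil => simp
  | cons G F ih => simp [ih]

theorem ok.lt_length {m : List α} {z : ℕᵒᵈ ×ₗ α} (h : ok m z) :
    OrderDual.ofDual (ofLex z).1 < m.length := by
  obtain ⟨b, hb, -⟩ := h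
  by_contra hc
  rw [List.getElem?_eq_none (by omega)] at hb
  exact absurd hb (by simp)

theorem exists_parse_aux {w : List α} (hw : Lyn w) : ∀ (n : ℕ) (p s : List α), s.length ≤ n →
    p ≠ [] → w = p ++ s → ∃ vs : List (ℕᵒᵈ ×ₗ α), (∀ z ∈ vs, ok w z) ∧ s = fl w vs := by
  intro n
  induction n with
  | zero =>
    intro p s hs _ _
    have : s = [] := List.length_eq_zero_iff.1 (by omega)
    exact ⟨[], by simp, by simp [this]⟩
  | succ n ih =>
    intro p s hs hp hps
    by_cases hsn : s = []
    · exact ⟨[], by simp, by simp [hsn]⟩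
    · have hlt : w < s := hw.2 p s hp hsn hps
      have hSL : SL w s := SL_of_lt_of_length hlt (by rw [hps]; simp)
      obtain ⟨j, b, c, h1, h2, h3, h4⟩ := hSL
      have hjs : j < s.length := by
        by_contra hc
        rw [List.getElem?_eq_none (by omega)] at h3
        exact absurd h3 (by simp)
      have htake : s.take j = w.take j := by
        apply List.ext_getElem?
        intro i
        rw [List.getElem?_take, List.getElem?_take]
        split_ifs with hi
        · exact (h1 i hi).symm
        · rfl
      have hsplit : s = w.take j ++ [c] ++ s.drop (j + 1) := by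
        rw [← htake]
        have h5 : s[j]'hjs = c := by
          rw [List.getElem?_eq_getElem hjs] at h3
          exact Option.some.inj h3
        conv_lhs => rw [← List.take_append_drop j s]
        rw [List.append_assoc]
        congr 1
        rw [← List.cons_getElem_drop_succ (h := hjs), h5]
        rfl
      obtain ⟨vs, hvs, hfl⟩ := ih (p ++ (w.take j ++ [c])) (s.drop (j + 1)) (by simp; omega)
        (by simp) (by rw [List.append_assoc, ← hsplit]; exact hps)
      refine ⟨toLex (OrderDual.toDual j, c) :: vs, ?_, ?_⟩
      · intro z hz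
        rcases List.mem_cons.1 hz with rfl | hz
        · exact ⟨b, h2, h4⟩
        · exact hvs z hz
      · rw [fl_cons, ← hfl]
        simpa [wd] using hsplit

theorem exists_parse {a : α} {u : List α} (hw : Lyn (a :: u)) :
    ∃ vs : List (ℕᵒᵈ ×ₗ α), (∀ z ∈ vs, ok (a :: u) z) ∧ u = fl (a :: u) vs :=
  exists_parse_aux hw u.length [a] u le_rfl (by simp) rfl

/-- L1: the word of an admissible letter is Lyndon -/
theorem Lyn_wd {w : List α} (hw : Lyn w) {z : ℕᵒᵈ ×ₗ α} (hz : ok w z) : Lyn (wd w z) := by
  have hlen := hz.lt_length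
  obtain ⟨b, hb, hbc⟩ := hz
  set j := OrderDual.ofDual (ofLex z).1 with hj
  set c := (ofLex z).2 with hc
  have hwd : wd w z = w.take j ++ [c] := rfl
  rw [hwd]
  refine ⟨by simp, ?_⟩
  intro x y hx hy hxy
  -- y = y' ++ [c]
  obtain ⟨y', e, rfl⟩ : ∃ y' e, y = y' ++ [e] := by
    exact ⟨y.dropLast, y.getLast hy, (List.dropLast_append_getLast hy).symm⟩
  have h0 : w.take j ++ [c] = (x ++ y') ++ [e] := by rw [hxy]; simp
  obtain ⟨h1, h2⟩ := List.append_inj' h0 (by simp)
  have h3 : c = e := by simpa using h2
  subst h3
  -- w = x ++ (y' ++ w.drop j)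
  have hw2 : w = x ++ (y' ++ w.drop j) := by
    conv_lhs => rw [← List.take_append_drop j w]
    rw [h1]; simp
  have hdrop : w.drop j ≠ [] := by
    intro h
    have := congrArg List.length h
    simp at this
    omega
  have hlt : w < y' ++ w.drop j := hw.2 x _ hx (by simp [hdrop]) hw2
  have hS : SL w (y' ++ w.drop j) := SL_of_lt_of_length hlt (by
    have := congrArg List.length hw2
    rw [List.length_append] at this
    omega)
  obtain ⟨n, e1, g1, k1, k2, k3, k4⟩ := hS
  have hylen : y'.length < j := by
    have := congrArg List.length h1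
    simp at this
    have hx1 : 0 < x.length := List.length_pos_iff.2 hx
    omega
  have hget : ∀ i, i < j → (w.take j ++ [c])[i]? = w[i]? := by
    intro i hi
    rw [List.getElem?_append_left (by simp; omega), List.getElem?_take]
    simp [hi]
  apply SL.lt
  by_cases hn : n < y'.length
  · refine ⟨n, e1, g1, ?_, ?_, ?_, k4⟩
    · intro i hi
      rw [hget i (by omega), k1 i hi, List.getElem?_append_left (by omega),
        List.getElem?_append_left (by omega)]
    · rw [hget n (by omega)]; exact k2
    · rw [List.getElem?_append_left hn] at k3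
      rw [List.getElem?_append_left hn]; exact k3
  · -- n ≥ |y'| : w[|y'|] ≤ b < c
    have hwy : w[y'.length]? = some (w[y'.length]'(by omega)) := by
      rw [List.getElem?_eq_getElem]
    have hle : w[y'.length]'(by omega) ≤ b := by
      have hbd : (y' ++ w.drop j)[y'.length]? = some b := by
        rw [List.getElem?_append_right le_rfl]
        simp
        exact hb
      rcases Nat.lt_or_ge y'.length n with h | h
      · have := k1 _ h
        rw [hwy, hbd] at this
        exact le_of_eq (Option.some.inj this)
      · have hnn : n = y'.length := by omega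
        subst hnn
        rw [hwy] at k2
        rw [hbd] at k3
        have e2 := Option.some.inj k2
        have e3 := Option.some.inj k3
        rw [e2, e3]; exact k4.le
    refine ⟨y'.length, w[y'.length]'(by omega), c, ?_, ?_, ?_, lt_of_le_of_lt hle hbc⟩
    · intro i hi
      rw [hget i (by omega), k1 i (by omega), List.getElem?_append_left (by omega),
        List.getElem?_append_left (by omega)]
    · rw [hget _ hylen]; exact hwy
    · rw [List.getElem?_append_right le_rfl]; simp

theorem wd_get_lt {m : List α} {z : ℕᵒᵈ ×ₗ α} {i : ℕ}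
    (hi : i < OrderDual.ofDual (ofLex z).1) (hl : OrderDual.ofDual (ofLex z).1 < m.length) :
    (wd m z)[i]? = m[i]? := by
  have htl : (m.take (OrderDual.ofDual (ofLex z).1)).length = OrderDual.ofDual (ofLex z).1 := by
    rw [List.length_take]; omega
  unfold wd
  rw [List.getElem?_append_left (by rw [htl]; exact hi), List.getElem?_take]
  simp [hi]

theorem wd_get_eq {m : List α} {z : ℕᵒᵈ ×ₗ α}
    (hl : OrderDual.ofDual (ofLex z).1 < m.length) :
    (wd m z)[OrderDual.ofDual (ofLex z).1]? = some (ofLex z).2 := by
  have htl : (m.take (OrderDual.ofDual (ofLex z).1)).length = OrderDual.ofDual (ofLex z).1 := by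
    rw [List.length_take]; omega
  unfold wd
  rw [List.getElem?_append_right (by rw [htl]), htl]
  simp

/-- L2 -/
theorem SL_wd {w : List α} {z z' : ℕᵒᵈ ×ₗ α} (hz : ok w z) (hz' : ok w z') (h : z < z') :
    SL (wd w z) (wd w z') := by
  have hlen := hz.lt_length
  have hlen' := hz'.lt_length
  obtain ⟨b, hb, hbc⟩ := hz
  obtain ⟨b', hb', hbc'⟩ := hz'
  rcases Prod.Lex.lt_iff.1 h with h1 | ⟨h1, h2⟩
  · -- j > j'
    have h1' : OrderDual.ofDual (ofLex z').1 < OrderDual.ofDual (ofLex z).1 := h1
    refine ⟨OrderDual.ofDual (ofLex z').1, b', (ofLex z').2, ?_, ?_, ?_, hbc'⟩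
    · intro i hi
      rw [wd_get_lt (hi.trans h1') hlen, wd_get_lt hi hlen']
    · rw [wd_get_lt h1' hlen]; exact hb'
    · exact wd_get_eq hlen'
  · have h1' : OrderDual.ofDual (ofLex z).1 = OrderDual.ofDual (ofLex z').1 := by rw [h1]
    refine ⟨OrderDual.ofDual (ofLex z).1, (ofLex z).2, (ofLex z').2, ?_, ?_, ?_, h2⟩
    · intro i hi
      rw [wd_get_lt hi hlen, wd_get_lt (by rw [← h1']; exact hi) hlen']
    · exact wd_get_eq hlen
    · rw [h1']; exact wd_get_eq hlen'

/-- L3 -/
theorem fl_lt {w : List α} : ∀ {F G : List (ℕᵒᵈ ×ₗ α)}, (∀ z ∈ F, ok w z) → (∀ z ∈ G, ok w z) →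
    F < G → fl w F < fl w G := by
  intro F
  induction F with
  | nil =>
    intro G _ _ h
    cases G with
    | nil => exact absurd h (lt_irrefl _)
    | cons z G =>
      rw [fl_nil, fl_cons]
      exact (lt_append_of_ne_nil [] (s := wd w z ++ fl w G) (by simp [wd_ne_nil]))
  | cons z F ih =>
    intro G hF hG h
    cases G with
    | nil => exact absurd h (by simp)
    | cons z' G =>
      rw [List.cons_lt_cons_iff] at h
      rw [fl_cons, fl_cons]
      rcases h with h | ⟨rfl, h⟩
      · exact ((SL_wd (hF z (by simp)) (hG z' (by simp)) h).append _ _).lt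
      · exact append_left_lt' _ (ih (fun z hz => hF z (by simp [hz])) (fun z hz => hG z (by simp [hz])) h)

/-- L6: a prefix of `w` is smaller than the word of an admissible letter -/
theorem prefix_lt_wd {w p s : List α} (hps : w = p ++ s) {z : ℕᵒᵈ ×ₗ α} (hz : ok w z) :
    p < wd w z := by
  have hlen := hz.lt_length
  obtain ⟨b, hb, hbc⟩ := hz
  set j := OrderDual.ofDual (ofLex z).1 with hj
  by_cases h : p.length ≤ j
  · have h1 : w.take j = p ++ s.take (j - p.length) := by
      rw [hps, List.take_append, List.take_of_length_le h]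
    have h2 : wd w z = p ++ (s.take (j - p.length) ++ [(ofLex z).2]) := by
      unfold wd
      rw [← hj, h1]; simp
    rw [h2]
    exact lt_append_of_ne_nil p (by simp)
  · rw [not_le] at h
    apply SL.lt
    have hpw : ∀ i, i < p.length → p[i]? = w[i]? := by
      intro i hi
      rw [hps, List.getElem?_append_left hi]
    have htl : (w.take j).length = j := by rw [List.length_take]; omega
    refine ⟨j, b, (ofLex z).2, ?_, ?_, ?_, hbc⟩
    · intro i hi
      rw [hpw i (by omega)]
      unfold wd
      rw [← hj, List.getElem?_append_left (by rw [htl]; exact hi), List.getElem?_take]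
      simp [hi]
    · rw [hpw j h]; exact hb
    · unfold wd
      rw [← hj, List.getElem?_append_right (by rw [htl]), htl]
      simp

/-- L5: prefixes given by the parse are Lyndon -/
theorem Lyn_prefix {w : List α} (hw : Lyn w) (a : α) : ∀ (pre : List (ℕᵒᵈ ×ₗ α)) (s : List α),
    (∀ z ∈ pre, ok w z) → w = (a :: fl w pre) ++ s → Lyn (a :: fl w pre) := by
  intro pre
  induction pre using List.reverseRecOn with
  | nil => intro s _ _; exact Lyn_singleton a
  | append_singleton pre z ih =>
    intro s hok hs
    have h1 : fl w (pre ++ [z]) = fl w pre ++ wd w z := by simp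
    rw [h1] at hs ⊢
    have h2 : Lyn (a :: fl w pre) := ih (wd w z ++ s) (fun y hy => hok y (by simp [hy]))
      (hs.trans (by simp))
    have h3 : a :: fl w pre < wd w z := prefix_lt_wd (w := w) (s := wd w z ++ s)
      (hs.trans (by simp)) (hok z (by simp))
    exact h2.append (Lyn_wd hw (hok z (by simp))) h3

theorem t_F4 : S_F4 := by
  intro α _ w hw hlen
  cases w with
  | nil => simp at hlen
  | cons a u =>
    obtain ⟨vs, hvs, hu⟩ := exists_parse hw
    have hne : vs ≠ [] := by
      rintro rfl
      rw [fl_nil] at hu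
      subst hu
      simp at hlen
    obtain ⟨vs', z, rfl⟩ : ∃ vs' z, vs = vs' ++ [z] :=
      ⟨vs.dropLast, vs.getLast hne, (List.dropLast_append_getLast hne).symm⟩
    have h1 : a :: u = (a :: fl (a :: u) vs') ++ wd (a :: u) z := by
      conv_lhs => rw [hu]
      simp
    refine ⟨a :: fl (a :: u) vs', wd (a :: u) z, ?_, ?_, ?_, h1⟩
    · exact Lyn_prefix hw a vs' (wd (a :: u) z) (fun y hy => hvs y (by simp [hy])) h1
    · exact Lyn_wd hw (hvs z (by simp))
    · exact prefix_lt_wd h1 (hvs z (by simp))

/-- L4 -/
theorem Lyn_fl {w : List α} (hw : Lyn w) : ∀ (n : ℕ) (F : List (ℕᵒᵈ ×ₗ α)), F.length ≤ n →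
    (∀ z ∈ F, ok w z) → Lyn F → Lyn (fl w F) := by
  intro n
  induction n with
  | zero =>
    intro F hF _ hL
    exact absurd (List.length_eq_zero_iff.1 (by omega)) hL.1
  | succ n ih =>
    intro F hF hok hL
    by_cases h2 : 2 ≤ F.length
    · obtain ⟨u, v, hu, hv, huv, rfl⟩ := t_F4 _ F hL h2
      have hul : 0 < u.length := List.length_pos_iff.2 hu.1
      have hvl : 0 < v.length := List.length_pos_iff.2 hv.1
      simp at hF
      have hoku : ∀ z ∈ u, ok w z := fun z hz => hok z (by simp [hz])
      have hokv : ∀ z ∈ v, ok w z := fun z hz => hok z (by simp [hz])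
      rw [fl_append]
      exact (ih u (by omega) hoku hu).append (ih v (by omega) hokv hv) (fl_lt hoku hokv huv)
    · have : F.length = 1 := by
        have := List.length_pos_iff.2 hL.1
        omega
      obtain ⟨z, rfl⟩ := List.length_eq_one_iff.1 this
      simp only [fl_cons, fl_nil, List.append_nil]
      exact Lyn_wd hw (hok z (by simp))

/-- KEY LEMMA: the parse lowers the chain number. -/
theorem NoChain_parse {a : α} {u : List α} {d : ℕ} (hw : Lyn (a :: u)) (hn : NoChain (d + 1) (a :: u))
    {vs : List (ℕᵒᵈ ×ₗ α)} (hok : ∀ z ∈ vs, ok (a :: u) z) (hu : u = fl (a :: u) vs) :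
    NoChain d vs := by
  rintro ⟨p, q, F, hFl, hFL, hFp, hvs⟩
  apply hn
  set w := a :: u with hwdef
  have hokp : ∀ z ∈ p, ok w z := fun z hz => hok z (by rw [hvs]; simp [hz])
  have hokF : ∀ G ∈ F, ∀ z ∈ G, ok w z := by
    intro G hG z hz
    apply hok z
    rw [hvs]
    simp only [List.mem_append, List.mem_flatten]
    exact Or.inl (Or.inr ⟨G, hG, hz⟩)
  have hweq : w = (a :: fl w p) ++ (F.map (fl w)).flatten ++ fl w q := by
    conv_lhs => rw [hwdef, hu, hvs]
    simp [fl_flatten]
  have hpre : Lyn (a :: fl w p) := Lyn_prefix hw a p ((F.map (fl w)).flatten ++ fl w q) hokp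
    (by rw [← List.append_assoc]; exact hweq)
  refine ⟨[], fl w q, (a :: fl w p) :: F.map (fl w), by simp [hFl], ?_, ?_, ?_⟩
  · intro l hl
    rcases List.mem_cons.1 hl with rfl | hl
    · exact hpre
    · obtain ⟨G, hG, rfl⟩ := List.mem_map.1 hl
      exact Lyn_fl hw G.length G le_rfl (hokF G hG) (hFL G hG)
  · rw [List.pairwise_cons]
    constructor
    · intro l hl
      obtain ⟨G, hG, rfl⟩ := List.mem_map.1 hl
      obtain ⟨z, G', rfl⟩ : ∃ z G', G = z :: G' := List.exists_cons_of_ne_nil (hFL G hG).1
      rw [fl_cons]
      exact (prefix_lt_wd (w := w) (s := (F.map (fl w)).flatten ++ fl w q)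
        (by rw [← List.append_assoc]; exact hweq) (hokF _ hG z (by simp))).trans_le (le_append _ _)
    · rw [List.pairwise_map]
      exact hFp.imp_of_mem (fun {G H} hG hH h => fl_lt (hokF G hG) (hokF H hH) h)
  · simpa using hweq

/-! ### The parse determines the word -/

theorem take_fl {m m' : List α} : ∀ (vs : List (ℕᵒᵈ ×ₗ α)) (n : ℕ), (∀ z ∈ vs, ok m z) →
    (∀ z ∈ vs, ok m' z) → m.take n = m'.take n → (fl m vs).take n = (fl m' vs).take n := by
  intro vs
  induction vs with
  | nil => intro n _ _ _; rfl
  | cons z vs ih =>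
    intro n h1 h2 h
    have hl := (h1 z (by simp)).lt_length
    have hl' := (h2 z (by simp)).lt_length
    set j := OrderDual.ofDual (ofLex z).1 with hj
    have hlen : (wd m z).length = j + 1 := by
      unfold wd; simp; omega
    have hlen' : (wd m' z).length = j + 1 := by
      unfold wd; simp; omega
    rw [fl_cons, fl_cons, List.take_append, List.take_append, hlen, hlen']
    have hA : (wd m z).take n = (wd m' z).take n := by
      unfold wd
      rw [List.take_append, List.take_append, ← hj]
      have e1 : (m.take j).length = j := by simp; omega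
      have e2 : (m'.take j).length = j := by simp; omega
      rw [e1, e2, List.take_take, List.take_take]
      congr 1
      have h3 := congrArg (List.take (min n j)) h
      rw [List.take_take, List.take_take] at h3
      simpa using h3
    have hB : (fl m vs).take (n - (j + 1)) = (fl m' vs).take (n - (j + 1)) := by
      apply ih _ (fun z hz => h1 z (by simp [hz])) (fun z hz => h2 z (by simp [hz]))
      have h3 := congrArg (List.take (n - (j + 1))) h
      rw [List.take_take, List.take_take] at h3
      simpa [min_eq_left (Nat.sub_le n (j + 1))] using h3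
    rw [hA, hB]

theorem parse_injective {a : α} {u u' : List α} {vs : List (ℕᵒᵈ ×ₗ α)}
    (h1 : ∀ z ∈ vs, ok (a :: u) z) (h2 : ∀ z ∈ vs, ok (a :: u') z)
    (hu : u = fl (a :: u) vs) (hu' : u' = fl (a :: u') vs) : u = u' := by
  have key : ∀ n, (a :: u).take n = (a :: u').take n := by
    intro n
    induction n with
    | zero => simp
    | succ n ih =>
      rw [List.take_succ_cons, List.take_succ_cons]
      congr 1
      conv_lhs => rw [hu]
      conv_rhs => rw [hu']
      exact take_fl vs n h1 h2 ih
  have h3 := key (max (a :: u).length (a :: u').length)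
  rw [List.take_of_length_le (le_max_left _ _), List.take_of_length_le (le_max_right _ _)] at h3
  exact (List.cons.inj h3).2

/-! ### Factorisation into nonincreasing Lyndon words -/

theorem exists_cfl (w : List α) : ∃ M : List (List α), (∀ l ∈ M, Lyn l) ∧
    M.Pairwise (fun u v => v ≤ u) ∧ w = M.flatten := by
  classical
  have hex : ∃ n, ∃ M : List (List α), M.length = n ∧ (∀ l ∈ M, Lyn l) ∧ w = M.flatten :=
    ⟨w.length, w.map (fun a => [a]), by simp, by
      intro l hl
      obtain ⟨a, -, rfl⟩ := List.mem_map.1 hl
      exact Lyn_singleton a, by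
      induction w with
      | nil => rfl
      | cons a w ih => simpa using ih⟩
  obtain ⟨M, hMl, hML, hw⟩ := Nat.find_spec hex
  refine ⟨M, hML, ?_, hw⟩
  rw [← List.isChain_iff_pairwise]
  by_contra hc
  -- find an adjacent pair u < v
  have : ∃ (A B : List (List α)) (u v : List α), M = A ++ u :: v :: B ∧ u < v := by
    clear hw hMl hML
    induction M with
    | nil => exact absurd List.isChain_nil hc
    | cons u M ih =>
      cases M with
      | nil => exact absurd (List.isChain_singleton _) hc
      | cons v M =>
        by_cases huv : v ≤ u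
        · have : ¬ List.IsChain (fun u v => v ≤ u) (v :: M) := by
            intro h
            exact hc (List.IsChain.cons_cons huv h)
          obtain ⟨A, B, x, y, h1, h2⟩ := ih this
          exact ⟨u :: A, B, x, y, by rw [h1]; rfl, h2⟩
        · exact ⟨[], M, u, v, rfl, not_le.1 huv⟩
  obtain ⟨A, B, u, v, hM, huv⟩ := this
  have hmin := Nat.find_min hex (m := (A ++ (u ++ v) :: B).length) (by
    rw [← hMl, hM]; simp)
  apply hmin
  refine ⟨A ++ (u ++ v) :: B, rfl, ?_, ?_⟩
  · intro l hl
    rcases List.mem_append.1 hl with hl | hl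
    · exact hML l (by rw [hM]; simp [hl])
    · rcases List.mem_cons.1 hl with rfl | hl
      · exact (hML u (by rw [hM]; simp)).append (hML v (by rw [hM]; simp)) huv
      · exact hML l (by rw [hM]; simp [hl])
  · rw [hw, hM]; simp

end H67OL
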