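import Pool.Agent.H67.OL.Words

set_option autoImplicit false

namespace H67OL

/-- comparison of thin sets along an injection that does not increase weights -/
theorem Thin.of_injOn {α β : Type} {f : α → ℕ} {g : β → ℕ} {S : Set α} {T : Set β}
    (hT : Thin g T) (φ : S → T) (hφ : Function.Injective φ) (h : ∀ a : S, g (φ a) ≤ f a) :
    Thin f S := by
  intro x hx0 hx1
  have h1 := (hT x hx0 hx1).comp_injective hφ
  refine Summable.of_nonneg_of_le (fun a => by positivity) (fun a => ?_) h1
  exact pow_le_pow_of_le_one hx0.le hx1.le (h a)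

theorem thin_prod {α β : Type} {f : α → ℕ} {g : β → ℕ} (S : Set α) (T : Set β)
    (hS : Thin f S) (hT : Thin g T) :
    Thin (fun p : α × β => f p.1 + g p.2) (S ×ˢ T) := by
  intro x hx0 hx1
  have h1 := Summable.mul_of_nonneg (hS x hx0 hx1) (hT x hx0 hx1)
    (fun a => by positivity) (fun a => by positivity)
  have h2 := h1.comp_injective (i := fun p : (S ×ˢ T : Set (α × β)) =>
    ((⟨p.1.1, p.2.1⟩ : S), (⟨p.1.2, p.2.2⟩ : T))) (by
      rintro ⟨⟨a, b⟩, h⟩ ⟨⟨a', b'⟩, h'⟩ h3
      simp at h3
      simp [h3])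
  refine h2.congr (fun p => ?_)
  simp [pow_add]

theorem thin_nat : Thin (fun n : ℕ => n) Set.univ := by
  intro x hx0 hx1
  have h1 := summable_geometric_of_lt_one hx0.le hx1
  exact h1.comp_injective Subtype.val_injective

/-- the weight of the derived alphabet -/
def dw {α : Type} (f : α → ℕ) (z : ℕᵒᵈ ×ₗ α) : ℕ := OrderDual.ofDual (ofLex z).1 + f (ofLex z).2

theorem thin_dw {α : Type} (f : α → ℕ) (hf : Thin f Set.univ) : Thin (dw f) Set.univ := by
  refine Thin.of_injOn (thin_prod Set.univ Set.univ thin_nat hf)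
    (fun z => ⟨(OrderDual.ofDual (ofLex z.1).1, (ofLex z.1).2), by simp⟩) ?_ ?_
  · rintro ⟨z, hz⟩ ⟨z', hz'⟩ h
    simp only [Subtype.mk.injEq, Prod.mk.injEq] at h
    ext1
    apply ofLex.injective
    exact Prod.ext (OrderDual.ofDual.injective h.1) h.2
  · intro z
    exact le_rfl

theorem wl_append {α : Type} (f : α → ℕ) (u v : List α) : wl f (u ++ v) = wl f u + wl f v := by
  simp [wl]

theorem wl_cons {α : Type} (f : α → ℕ) (a : α) (v : List α) : wl f (a :: v) = f a + wl f v := by
  simp [wl]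

theorem length_le_wl {α : Type} {f : α → ℕ} (hf : ∀ a, 1 ≤ f a) (u : List α) : u.length ≤ wl f u := by
  induction u with
  | nil => simp
  | cons a u ih => rw [wl_cons, List.length_cons]; have := hf a; omega

theorem wl_wd {α : Type} [LinearOrder α] {f : α → ℕ} (hf : ∀ a, 1 ≤ f a) {m : List α}
    {z : ℕᵒᵈ ×ₗ α} (hz : ok m z) : dw f z ≤ wl f (wd m z) := by
  have h1 := hz.lt_length
  unfold wd
  rw [wl_append]
  have h2 := length_le_wl hf (m.take (OrderDual.ofDual (ofLex z).1))
  rw [List.length_take, min_eq_left h1.le] at h2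
  unfold dw
  have : wl f [(ofLex z).2] = f (ofLex z).2 := by simp [wl]
  omega

theorem wl_fl {α : Type} [LinearOrder α] {f : α → ℕ} (hf : ∀ a, 1 ≤ f a) {m : List α} :
    ∀ vs : List (ℕᵒᵈ ×ₗ α), (∀ z ∈ vs, ok m z) → wl (dw f) vs ≤ wl f (fl m vs) := by
  intro vs
  induction vs with
  | nil => intro _; simp [wl]
  | cons z vs ih =>
    intro h
    rw [wl_cons, fl_cons, wl_append]
    exact Nat.add_le_add (wl_wd hf (h z (by simp))) (ih (fun z hz => h z (by simp [hz])))

theorem wl_flatten {α : Type} (f : α → ℕ) (M : List (List α)) :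
    wl f M.flatten = (M.map (wl f)).sum := by
  induction M with
  | nil => simp [wl]
  | cons u M ih => simp [wl_append, ih]

/-- Lyndon words without long chains are thin if this holds one step below. -/
theorem thin_lyn {α : Type} [LinearOrder α] (d : ℕ) (f : α → ℕ) (hf : ∀ a, 1 ≤ f a)
    (hft : Thin f Set.univ) (ih : Thin (wl (dw f)) {w : List (ℕᵒᵈ ×ₗ α) | NoChain d w}) :
    Thin (wl f) {w : List α | Lyn w ∧ NoChain (d + 1) w} := by
  classical
  have key : ∀ w : {w : List α | Lyn w ∧ NoChain (d + 1) w}, ∃ p : α × List (ℕᵒᵈ ×ₗ α),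
      NoChain d p.2 ∧ ∃ u, w.1 = p.1 :: u ∧ (∀ z ∈ p.2, ok (p.1 :: u) z) ∧ u = fl (p.1 :: u) p.2 := by
    rintro ⟨w, hw, hn⟩
    cases w with
    | nil => exact absurd rfl hw.1
    | cons a u =>
      obtain ⟨vs, hvs, hu⟩ := exists_parse hw
      exact ⟨(a, vs), NoChain_parse hw hn hvs hu, u, rfl, hvs, hu⟩
  choose P hP U hU hok hfl using key
  refine Thin.of_injOn (thin_prod Set.univ {w : List (ℕᵒᵈ ×ₗ α) | NoChain d w} hft ih)
    (fun w => ⟨P w, by simp, hP w⟩) ?_ ?_
  · intro w w' h
    replace h : P w = P w' := Subtype.ext_iff.1 h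
    apply Subtype.ext
    rw [hU w, hU w']
    have h1 := hok w
    have h2 := hok w'
    have h3 := hfl w
    have h4 := hfl w'
    rw [← h] at h2 h4 ⊢
    rw [parse_injective h1 h2 h3 h4]
  · intro w
    show f (P w).1 + wl (dw f) (P w).2 ≤ wl f w.1
    rw [hU w, wl_cons]
    conv_rhs => rw [hfl w]
    exact Nat.add_le_add le_rfl (wl_fl hf _ (hok w))

theorem NoChain.factor {α : Type} [LinearOrder α] {d : ℕ} {p l q : List α}
    (h : NoChain d (p ++ l ++ q)) : NoChain d l := by
  rintro ⟨p', q', F, h1, h2, h3, h4⟩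
  apply h
  refine ⟨p ++ p', q' ++ q, F, h1, h2, h3, ?_⟩
  rw [h4]; simp

theorem t_COUNT (hM : S_MULT) : S_COUNT := by
  intro d
  induction d with
  | zero =>
    intro α _ f _ _ x _ _
    have : IsEmpty {w : List α | NoChain 0 w} := by
      constructor
      rintro ⟨w, hw⟩
      exact hw ⟨[], w, [], rfl, by simp, by simp, by simp⟩
    exact summable_empty
  | succ d ih =>
    intro α _ f hf hft
    have h1 : Thin (wl (dw f)) {w : List (ℕᵒᵈ ×ₗ α) | NoChain d w} := by
      apply ih (ℕᵒᵈ ×ₗ α) (dw f)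
      · intro z
        have := hf (ofLex z).2
        unfold dw
        omega
      · exact thin_dw f hft
    have h2 := thin_lyn d f hf hft h1
    -- the alphabet of Lyndon words, reversed
    let Λ : Set (List α) := {w : List α | Lyn w ∧ NoChain (d + 1) w}
    have h3 : Thin (fun l : (Λ)ᵒᵈ => wl f (OrderDual.ofDual l).1) Set.univ := by
      refine Thin.of_injOn h2 (fun l => OrderDual.ofDual l.1) ?_ ?_
      · intro a b hab
        exact Subtype.ext (OrderDual.ofDual.injective hab)
      · intro a; exact le_rfl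
    have h4 := hM (Λ)ᵒᵈ (fun l => wl f (OrderDual.ofDual l).1) (by
      intro l
      have e1 := length_le_wl hf (OrderDual.ofDual l).1
      have e2 : 0 < (OrderDual.ofDual l).1.length := List.length_pos_iff.2 (OrderDual.ofDual l).2.1.1
      omega) h3
    have key : ∀ w : {w : List α | NoChain (d + 1) w}, ∃ M : List (Λ)ᵒᵈ,
        M.Pairwise (· ≤ ·) ∧ w.1 = (M.map (fun l => (OrderDual.ofDual l).1)).flatten := by
      rintro ⟨w, hw⟩
      obtain ⟨M, hM1, hM2, hM3⟩ := exists_cfl w
      have hmem : ∀ l ∈ M, l ∈ Λ := by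
        intro l hl
        refine ⟨hM1 l hl, ?_⟩
        obtain ⟨A, B, rfl⟩ := List.append_of_mem hl
        have : w = A.flatten ++ l ++ B.flatten := by rw [hM3]; simp
        have hw' : NoChain (d + 1) w := hw
        rw [this] at hw'
        exact hw'.factor
      refine ⟨M.attach.map (fun l => OrderDual.toDual ⟨l.1, hmem l.1 l.2⟩), ?_, ?_⟩
      · rw [List.pairwise_map]
        have : M.attach.Pairwise (fun u v => v.1 ≤ u.1) := by
          rw [← List.pairwise_map (f := Subtype.val) (R := fun u v => v ≤ u), List.attach_map_subtype_val]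
          exact hM2
        exact this.imp (fun {u v} h => h)
      · show w = _
        rw [List.map_map]
        conv_lhs => rw [hM3, ← List.attach_map_subtype_val M]
        rfl
    choose Q hQ1 hQ2 using key
    refine Thin.of_injOn h4 (fun w => ⟨Q w, hQ1 w⟩) ?_ ?_
    · intro w w' h
      replace h : Q w = Q w' := Subtype.ext_iff.1 h
      apply Subtype.ext
      rw [hQ2 w, hQ2 w', h]
    · intro w
      show wl (fun l : (Λ)ᵒᵈ => wl f (OrderDual.ofDual l).1) (Q w) ≤ wl f w.1
      conv_rhs => rw [hQ2 w]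
      rw [wl_flatten, List.map_map]
      exact le_rfl

end H67OL
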