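import Pool.Agent.H67.OL.Defs

/-!
# The enveloping algebra is a domain and contains the Lie algebra
-/

set_option autoImplicit false

namespace H67OL

namespace DOMaux

open MvPolynomial

/-- polynomials of total degree less than `k` -/
noncomputable def Lt (K : Type) [Field K] (I : Type) : ℕ → Submodule K (MvPolynomial I K)
  | 0 => ⊥
  | k + 1 => restrictTotalDegree I K k

variable {K : Type} [Field K] {I : Type}

lemma mem_Lt_succ {k : ℕ} {p : MvPolynomial I K} : p ∈ Lt K I (k + 1) ↔ p.totalDegree ≤ k :=
  mem_restrictTotalDegree _ _ _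

lemma mem_Lt_zero {p : MvPolynomial I K} : p ∈ Lt K I 0 ↔ p = 0 := Submodule.mem_bot K

lemma Lt_mono {k l : ℕ} (h : k ≤ l) : Lt K I k ≤ Lt K I l := by
  intro p hp
  cases l with
  | zero =>
    have : k = 0 := by omega
    subst this
    exact hp
  | succ l =>
    rw [mem_Lt_succ]
    cases k with
    | zero =>
      rw [mem_Lt_zero] at hp
      subst hp
      simp
    | succ k =>
      rw [mem_Lt_succ] at hp
      omega

lemma not_mem_Lt {k : ℕ} {p : MvPolynomial I K} (hp : p ≠ 0) (h : k ≤ p.totalDegree) :
    p ∉ Lt K I k := by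
  intro hm
  cases k with
  | zero => exact hp (mem_Lt_zero.1 hm)
  | succ k =>
    rw [mem_Lt_succ] at hm
    omega

variable {L : Type} [LieRing L] [LieAlgebra K L] (b : Module.Basis I K L)
  (ρ : L →ₗ[K] Module.End K (MvPolynomial I K))

lemma step1 (hρ : ∀ (i : I) (p : MvPolynomial I K),
      (ρ (b i) p - X i * p).totalDegree ≤ p.totalDegree) (i : I) {k : ℕ}
    {p : MvPolynomial I K} (hp : p ∈ Lt K I k) : ρ (b i) p ∈ Lt K I (k + 1) := by
  cases k with
  | zero =>
    rw [mem_Lt_zero] at hp
    subst hp
    rw [map_zero]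
    exact Submodule.zero_mem _
  | succ k =>
    rw [mem_Lt_succ] at hp ⊢
    have e : ρ (b i) p = (ρ (b i) p - X i * p) + X i * p := by ring
    rw [e]
    refine (totalDegree_add _ _).trans (max_le ((hρ i p).trans (by omega)) ?_)
    refine (totalDegree_mul _ _).trans ?_
    rw [totalDegree_X]
    omega

lemma step2 (hρ : ∀ (i : I) (p : MvPolynomial I K),
      (ρ (b i) p - X i * p).totalDegree ≤ p.totalDegree) (i : I) {n : ℕ}
    {p : MvPolynomial I K} (hp : p.totalDegree ≤ n) : ρ (b i) p - X i * p ∈ Lt K I (n + 1) := by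
  rw [mem_Lt_succ]
  exact (hρ i p).trans hp

lemma deg_prod (l : List I) :
    ((l.map (fun i => (X i : MvPolynomial I K))).prod).totalDegree ≤ l.length := by
  induction l with
  | nil => simp
  | cons i l ih =>
    rw [List.map_cons, List.prod_cons, List.length_cons]
    refine (totalDegree_mul _ _).trans ?_
    rw [totalDegree_X]
    omega

/-- action of a product of elements of the basis -/
lemma act_prod {U : Type} [Ring U] [Algebra K U] (g : I → U)
    (Φ : U →ₐ[K] Module.End K (MvPolynomial I K)) (hΦ : ∀ i, Φ (g i) = ρ (b i))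
    (hρ : ∀ (i : I) (p : MvPolynomial I K),
      (ρ (b i) p - X i * p).totalDegree ≤ p.totalDegree) (l : List I) {n : ℕ}
    {p : MvPolynomial I K} (hp : p.totalDegree ≤ n) :
    Φ ((l.map g).prod) p - (l.map (fun i => (X i : MvPolynomial I K))).prod * p ∈
      Lt K I (l.length + n) := by
  induction l with
  | nil => simp
  | cons i l ih =>
    rw [List.map_cons, List.prod_cons, List.map_cons, List.prod_cons, List.length_cons, map_mul,
      hΦ]
    set q := Φ ((l.map g).prod) p with hq
    set q0 := (l.map (fun i => (X i : MvPolynomial I K))).prod * p with hq0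
    have hd0 : q0.totalDegree ≤ l.length + n := by
      refine (totalDegree_mul _ _).trans ?_
      have := deg_prod (K := K) l
      omega
    have e : (ρ (b i) * Φ ((l.map g).prod)) p -
        X i * (l.map (fun i => (X i : MvPolynomial I K))).prod * p =
        ρ (b i) (q - q0) + (ρ (b i) q0 - X i * q0) := by
      rw [map_sub, Module.End.mul_apply, ← hq, mul_assoc, ← hq0]
      ring
    rw [e]
    have h1 := step1 b ρ hρ i ih
    have h2 := step2 b ρ hρ i hd0
    have e2 : l.length + 1 + n = l.length + n + 1 := by ring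
    rw [e2]
    exact Submodule.add_mem _ h1 h2

/-- the sorted list of a monomial -/
noncomputable def lst [LinearOrder I] (s : I →₀ ℕ) : List I := (Finsupp.toMultiset s).sort (· ≤ ·)

lemma lst_length [LinearOrder I] (s : I →₀ ℕ) : (lst s).length = s.sum fun _ e => e := by
  unfold lst
  rw [← Multiset.coe_card, Multiset.sort_eq, Finsupp.card_toMultiset]
  rfl

lemma lst_prod [LinearOrder I] (s : I →₀ ℕ) :
    ((lst s).map (fun i => (X i : MvPolynomial I K))).prod = monomial s 1 := by
  have h1 : ((lst s).map (fun i => (X i : MvPolynomial I K))).prod =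
      ((Finsupp.toMultiset s).map (fun i => (X i : MvPolynomial I K))).prod := by
    rw [← Multiset.sort_eq (Finsupp.toMultiset s) (· ≤ ·)]
    rw [Multiset.map_coe, Multiset.prod_coe]
    rfl
  rw [h1, monomial_eq, C_1, one_mul]
  rw [Finsupp.toMultiset_map, Finsupp.prod_toMultiset]
  rw [Finsupp.prod_mapDomain_index (by simp) (by intro a m n; rw [pow_add])]

lemma lst_of_sorted [LinearOrder I] {inst : DecidableEq I} (m : List I)
    (hm : m.Pairwise (· ≤ ·)) :
    lst (@Multiset.toFinsupp I inst (m : Multiset I)) = m := by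
  unfold lst
  rw [Multiset.toFinsupp_toMultiset]
  have h1 : (Multiset.sort (m : Multiset I) (· ≤ ·)).Perm m := by
    rw [← Multiset.coe_eq_coe, Multiset.sort_eq]
  exact h1.eq_of_pairwise' (Multiset.pairwise_sort _ _) hm

/-- the symmetrisation-free PBW map -/
noncomputable def Psi [LinearOrder I] {U : Type} [Ring U] [Algebra K U] (g : I → U) :
    MvPolynomial I K →ₗ[K] U :=
  (basisMonomials I K).constr K fun s => ((lst s).map g).prod

lemma Psi_monomial [LinearOrder I] {U : Type} [Ring U] [Algebra K U] (g : I → U) (s : I →₀ ℕ)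
    (c : K) : Psi (K := K) g (monomial s c) = c • ((lst s).map g).prod := by
  have e : (monomial s c : MvPolynomial I K) = c • basisMonomials I K s := by
    rw [coe_basisMonomials, smul_monomial, smul_eq_mul, mul_one]
  rw [e, map_smul, Psi, Module.Basis.constr_basis]

lemma act_Psi [LinearOrder I] {U : Type} [Ring U] [Algebra K U] (g : I → U)
    (Φ : U →ₐ[K] Module.End K (MvPolynomial I K)) (hΦ : ∀ i, Φ (g i) = ρ (b i))
    (hρ : ∀ (i : I) (p : MvPolynomial I K),
      (ρ (b i) p - X i * p).totalDegree ≤ p.totalDegree) {m n : ℕ} {σ p : MvPolynomial I K}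
    (hσ : σ.totalDegree ≤ m) (hp : p.totalDegree ≤ n) :
    Φ (Psi (K := K) g σ) p - σ * p ∈ Lt K I (m + n) := by
  have e : Φ (Psi (K := K) g σ) p - σ * p = ∑ s ∈ σ.support, coeff s σ •
      (Φ (((lst s).map g).prod) p - ((lst s).map (fun i => (X i : MvPolynomial I K))).prod * p) := by
    conv_lhs => rw [as_sum σ]
    rw [map_sum, map_sum, LinearMap.sum_apply, Finset.sum_mul, ← Finset.sum_sub_distrib]
    refine Finset.sum_congr rfl fun s _ => ?_
    rw [Psi_monomial, map_smul, LinearMap.smul_apply, smul_sub, lst_prod]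
    congr 1
    rw [← smul_mul_assoc, smul_monomial, smul_eq_mul, mul_one]
  rw [e]
  refine Submodule.sum_mem _ fun s hs => Submodule.smul_mem _ _ ?_
  have h1 := act_prod b ρ g Φ hΦ hρ (lst s) hp
  refine Lt_mono ?_ h1
  have h2 := le_totalDegree hs
  rw [lst_length]
  omega

lemma act_ne [LinearOrder I] {U : Type} [Ring U] [Algebra K U] (g : I → U)
    (Φ : U →ₐ[K] Module.End K (MvPolynomial I K)) (hΦ : ∀ i, Φ (g i) = ρ (b i))
    (hρ : ∀ (i : I) (p : MvPolynomial I K),
      (ρ (b i) p - X i * p).totalDegree ≤ p.totalDegree) {σ p : MvPolynomial I K}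
    (hσ : σ ≠ 0) (hp : p ≠ 0) : Φ (Psi (K := K) g σ) p ≠ 0 := by
  intro h0
  have h1 := act_Psi b ρ g Φ hΦ hρ (le_refl σ.totalDegree) (le_refl p.totalDegree)
  rw [h0, zero_sub, Submodule.neg_mem_iff] at h1
  refine not_mem_Lt (mul_ne_zero hσ hp) ?_ h1
  rw [totalDegree_mul_of_isDomain hσ hp]

section Gen

variable {L : Type} [LieRing L] [LieAlgebra K L]

/-- the enveloping algebra is generated by the images of a basis -/
lemma adjoin_top {I : Type} (b : Module.Basis I K L) :
    Algebra.adjoin K (Set.range fun i => UniversalEnvelopingAlgebra.ι K (b i)) = ⊤ := by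
  set A0 := Algebra.adjoin K (Set.range fun i => UniversalEnvelopingAlgebra.ι K (b i)) with hA0
  have hι : ∀ x : L, UniversalEnvelopingAlgebra.ι K x ∈ A0 := by
    intro x
    rw [← b.linearCombination_repr x, Finsupp.linearCombination_apply, Finsupp.sum, map_sum]
    refine Subalgebra.sum_mem _ fun i _ => ?_
    rw [map_smul]
    exact Subalgebra.smul_mem _ (Algebra.subset_adjoin (Set.mem_range_self (f := fun i =>
      UniversalEnvelopingAlgebra.ι K (b i)) i)) _
  have key : ∀ t : TensorAlgebra K L, UniversalEnvelopingAlgebra.mkAlgHom K L t ∈ A0 := by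
    intro t
    refine TensorAlgebra.induction
      (C := fun t => UniversalEnvelopingAlgebra.mkAlgHom K L t ∈ A0) ?_ ?_ ?_ ?_ t
    · intro r
      rw [AlgHom.commutes]
      exact Subalgebra.algebraMap_mem _ _
    · intro x
      exact hι x
    · intro x y hx hy
      rw [map_mul]
      exact Subalgebra.mul_mem _ hx hy
    · intro x y hx hy
      rw [map_add]
      exact Subalgebra.add_mem _ hx hy
  have hsurj : Function.Surjective (UniversalEnvelopingAlgebra.mkAlgHom K L) := by
    intro u
    obtain ⟨t, ht⟩ := Quotient.exists_rep u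
    exact ⟨t, ht⟩
  rw [eq_top_iff]
  intro u _
  obtain ⟨t, rfl⟩ := hsurj u
  exact key t

lemma mem_closure_range {U : Type} [Ring U] {I : Type} (g : I → U) {z : U}
    (hz : z ∈ Submonoid.closure (Set.range g)) : ∃ l : List I, z = (l.map g).prod := by
  induction hz using Submonoid.closure_induction with
  | mem x hx =>
    obtain ⟨i, rfl⟩ := hx
    exact ⟨[i], by simp⟩
  | one => exact ⟨[], by simp⟩
  | mul x y _ _ hx hy =>
    obtain ⟨l, rfl⟩ := hx
    obtain ⟨l', rfl⟩ := hy
    exact ⟨l ++ l', by simp⟩

end Gen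

end DOMaux

open DOMaux in
theorem t_DOM (h1 : S_PBW) (h2 : S_SORT) : S_DOM := by
  intro K _ L _ _
  classical
  let I := Module.Basis.ofVectorSpaceIndex K L
  let b : Module.Basis I K L := Module.Basis.ofVectorSpace K L
  let _ : LinearOrder I := IsWellOrder.linearOrder WellOrderingRel
  obtain ⟨ρ, hlie, hρ⟩ := h1 K L I b
  -- the representation of the enveloping algebra
  obtain ⟨Φ, hΦ'⟩ : ∃ Φ : UniversalEnvelopingAlgebra K L →ₐ[K]
      Module.End K (MvPolynomial I K), ∀ x, Φ (UniversalEnvelopingAlgebra.ι K x) = ρ x := by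
    let _ : LieRing (Module.End K (MvPolynomial I K)) := LieRing.ofAssociativeRing
    let ρ' : L →ₗ⁅K⁆ Module.End K (MvPolynomial I K) :=
      { ρ with
        map_lie' := by
          intro x y
          rw [LieRing.of_associative_ring_bracket]
          exact hlie x y }
    exact ⟨UniversalEnvelopingAlgebra.lift K ρ', fun x =>
      UniversalEnvelopingAlgebra.lift_ι_apply K ρ' x⟩
  set g : I → UniversalEnvelopingAlgebra K L := fun i => UniversalEnvelopingAlgebra.ι K (b i)
    with hg
  have hΦ : ∀ i, Φ (g i) = ρ (b i) := fun i => hΦ' (b i)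
  have hne : ∀ {σ p : MvPolynomial I K}, σ ≠ 0 → p ≠ 0 → Φ (Psi (K := K) g σ) p ≠ 0 :=
    fun hσ hp => act_ne b ρ g Φ hΦ hρ hσ hp
  -- the span of the products of the basis elements
  have hspan : ∀ x : L, UniversalEnvelopingAlgebra.ι K x ∈ Submodule.span K (Set.range g) := by
    intro x
    rw [← b.linearCombination_repr x, Finsupp.linearCombination_apply, Finsupp.sum, map_sum]
    refine Submodule.sum_mem _ fun i _ => ?_
    rw [map_smul]
    exact Submodule.smul_mem _ _ (Submodule.subset_span ⟨i, rfl⟩)
  have hcomm : ∀ β γ, g β * g γ - g γ * g β ∈ Submodule.span K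
      {z | ∃ δ, (fun _ : I => 1) δ ≤ (fun _ : I => 1) β + (fun _ : I => 1) γ ∧ z = g δ} := by
    intro β γ
    have e : g β * g γ - g γ * g β = UniversalEnvelopingAlgebra.ι K ⁅b β, b γ⁆ := by
      let _ : LieRing (UniversalEnvelopingAlgebra K L) := LieRing.ofAssociativeRing
      rw [LieHom.map_lie, LieRing.of_associative_ring_bracket]
    rw [e]
    refine Submodule.span_mono ?_ (hspan _)
    rintro _ ⟨i, rfl⟩
    exact ⟨i, by simp, rfl⟩
  have hrange : ∀ l : List I, (l.map g).prod ∈ LinearMap.range (Psi (K := K) g) := by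
    intro l
    have h3 := h2 K (UniversalEnvelopingAlgebra K L) I g (fun _ => 1) hcomm l
    refine Submodule.span_le.2 ?_ h3
    rintro _ ⟨m, hm, _, rfl⟩
    refine ⟨MvPolynomial.monomial (Multiset.toFinsupp (m : Multiset I)) 1, ?_⟩
    rw [Psi_monomial, one_smul, lst_of_sorted m hm]
  have hsurj : ∀ u : UniversalEnvelopingAlgebra K L, ∃ σ, Psi (K := K) g σ = u := by
    intro u
    have h4 : u ∈ Algebra.adjoin K (Set.range g) := by
      have := adjoin_top b
      change Algebra.adjoin K (Set.range g) = ⊤ at this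
      rw [this]
      exact Algebra.mem_top
    rw [← Subalgebra.mem_toSubmodule, Algebra.adjoin_eq_span] at h4
    have h5 : Submodule.span K (Submonoid.closure (Set.range g) : Set _) ≤
        LinearMap.range (Psi (K := K) g) := by
      rw [Submodule.span_le]
      intro z hz
      obtain ⟨l, rfl⟩ := mem_closure_range g hz
      exact hrange l
    exact h5 h4
  have hu : ∀ {u : UniversalEnvelopingAlgebra K L} {p : MvPolynomial I K}, u ≠ 0 → p ≠ 0 →
      Φ u p ≠ 0 := by
    intro u p hu hp
    obtain ⟨σ, rfl⟩ := hsurj u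
    refine hne ?_ hp
    rintro rfl
    exact hu (map_zero _)
  refine ⟨⟨?_⟩, ?_, ?_⟩
  · intro u v huv
    by_contra hcon
    push Not at hcon
    have h6 : Φ u (Φ v 1) ≠ 0 := hu hcon.1 (hu hcon.2 one_ne_zero)
    apply h6
    rw [← Module.End.mul_apply, ← map_mul, huv, map_zero]
    rfl
  · refine ⟨⟨1, 0, ?_⟩⟩
    intro h
    have h7 : (Φ 1) (1 : MvPolynomial I K) = 0 := by
      rw [h, map_zero]
      rfl
    rw [show Φ 1 = 1 from map_one Φ, Module.End.one_apply] at h7
    exact one_ne_zero h7
  · intro x y hxy
    have h8 : UniversalEnvelopingAlgebra.ι K (x - y) = 0 := by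
      rw [map_sub]
      exact sub_eq_zero.2 hxy
    by_contra hcon
    have hz : x - y ≠ 0 := sub_ne_zero.2 hcon
    set z := x - y with hzdef
    -- the linear polynomial of `z`
    have h9 : Psi (K := K) g ((b.repr z).sum fun i a => MvPolynomial.monomial
        (Finsupp.single i 1) a) = UniversalEnvelopingAlgebra.ι K z := by
      conv_rhs => rw [← b.linearCombination_repr z, Finsupp.linearCombination_apply]
      rw [Finsupp.sum, Finsupp.sum, map_sum, map_sum]
      refine Finset.sum_congr rfl fun i _ => ?_
      rw [Psi_monomial, map_smul]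
      congr 1
      have : lst (Finsupp.single i 1 : I →₀ ℕ) = [i] := by
        unfold lst
        rw [Finsupp.toMultiset_single, one_smul, Multiset.sort_singleton]
      rw [this]
      simp [hg]
    have h10 : ((b.repr z).sum fun i a => MvPolynomial.monomial
        (Finsupp.single i 1) a) ≠ (0 : MvPolynomial I K) := by
      intro h0
      apply hz
      have h11 : b.repr z = 0 := by
        ext j
        have h12 := congrArg (MvPolynomial.coeff (Finsupp.single j 1)) h0
        rw [Finsupp.sum, MvPolynomial.coeff_sum, MvPolynomial.coeff_zero] at h12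
        simp only [MvPolynomial.coeff_monomial] at h12
        rw [Finsupp.zero_apply]
        by_cases hj : j ∈ (b.repr z).support
        · rw [Finset.sum_eq_single j] at h12
          · simpa using h12
          · intro i _ hij
            rw [if_neg]
            intro h
            exact hij (Finsupp.single_left_injective one_ne_zero h)
          · intro h
            exact absurd hj h
        · exact Finsupp.notMem_support_iff.1 hj
      exact (LinearEquiv.map_eq_zero_iff b.repr).1 h11
    exact hne h10 (one_ne_zero (α := MvPolynomial I K)) (by rw [h9, h8, map_zero]; rfl)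

end H67OL
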