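import Mathlib

/-!
# Enveloping algebras of PI Lie algebras are Ore (MP_fc2f40_al, S02527)
Definitions and exact statements (as Props) of the independent tasks.
-/

set_option autoImplicit false

namespace H67OL

/-- A word is *Lyndon* if it is nonempty and (lexicographically) smaller than each of its
proper nonempty suffixes. -/
def Lyn {α : Type} [LinearOrder α] (w : List α) : Prop :=
  w ≠ [] ∧ ∀ u v : List α, u ≠ [] → v ≠ [] → w = u ++ v → w < v

/-- `w` has no factor that is a product of `d` strictly increasing Lyndon words. -/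
def NoChain {α : Type} [LinearOrder α] (d : ℕ) (w : List α) : Prop :=
  ¬ ∃ (p q : List α) (F : List (List α)), F.length = d ∧ (∀ l ∈ F, Lyn l) ∧
      F.Pairwise (· < ·) ∧ w = p ++ F.flatten ++ q

/-- weight of a word -/
def wl {α : Type} (f : α → ℕ) (w : List α) : ℕ := (w.map f).sum

/-- A set is thin for a weight `f` if its generating series converges on `(0,1)`. -/
def Thin {α : Type} (f : α → ℕ) (S : Set α) : Prop :=
  ∀ x : ℝ, 0 < x → x < 1 → Summable (fun a : S => x ^ f a)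

/-- PBW representation. -/
def S_PBW : Prop := ∀ (K : Type) [Field K] (L : Type) [LieRing L] [LieAlgebra K L] (I : Type)
    [LinearOrder I] (b : Module.Basis I K L),
  ∃ ρ : L →ₗ[K] Module.End K (MvPolynomial I K),
    (∀ x y : L, ρ ⁅x, y⁆ = ρ x * ρ y - ρ y * ρ x) ∧
    ∀ (i : I) (p : MvPolynomial I K),
      (ρ (b i) p - MvPolynomial.X i * p).totalDegree ≤ p.totalDegree

/-- Sorting of products. -/
def S_SORT : Prop := ∀ (K : Type) [Field K] (A : Type) [Ring A] [Algebra K A] (B : Type)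
    [LinearOrder B] (g : B → A) (f : B → ℕ),
  (∀ β γ, g β * g γ - g γ * g β ∈ Submodule.span K {z | ∃ δ, f δ ≤ f β + f γ ∧ z = g δ}) →
  ∀ l : List B, (l.map g).prod ∈
    Submodule.span K {z | ∃ m : List B, m.Pairwise (· ≤ ·) ∧ wl f m ≤ wl f l ∧ z = (m.map g).prod}

/-- The enveloping algebra is a domain and contains `L`. -/
def S_DOM : Prop := ∀ (K : Type) [Field K] (L : Type) [LieRing L] [LieAlgebra K L],
  NoZeroDivisors (UniversalEnvelopingAlgebra K L) ∧ Nontrivial (UniversalEnvelopingAlgebra K L) ∧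
  Function.Injective (fun x : L => UniversalEnvelopingAlgebra.ι K x)

/-- Linearisation of an identity that holds on a subspace. -/
def S_LIN : Prop := ∀ (K : Type) [Field K] (A : Type) [Ring A] [Algebra K A] (S : Submodule K A)
    (F : FreeAlgebra K ℕ), F ≠ 0 →
  (∀ φ : ℕ → A, (∀ i, φ i ∈ S) → FreeAlgebra.lift K φ F = 0) →
  ∃ (d : ℕ) (c : Equiv.Perm (Fin d) → K), c 1 = 1 ∧
    ∀ y : Fin d → A, (∀ i, y i ∈ S) → ∑ σ, c σ • (List.ofFn (fun i => y (σ i))).prod = 0

/-- From the PI Lie algebra to a weak identity of `ad L` in `End L`. -/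
def S_WEAK : Prop := ∀ (K : Type) [Field K] (L : Type) [LieRing L] [LieAlgebra K L],
  (∃ f : FreeLieAlgebra K ℕ, f ≠ 0 ∧ ∀ φ : ℕ → L, FreeLieAlgebra.lift K φ f = 0) →
  ∃ (d : ℕ) (c : Equiv.Perm (Fin d) → K), c 1 = 1 ∧
    ∀ y : Fin d → L, ∑ σ, c σ • (List.ofFn (fun i => LieAlgebra.ad K L (y (σ i)))).prod = 0

/-- Multisets over a thin alphabet are thin. -/
def S_MULT : Prop := ∀ (B : Type) [LinearOrder B] (f : B → ℕ), (∀ b, 1 ≤ f b) →
  Thin f Set.univ → Thin (wl f) {l : List B | l.Pairwise (· ≤ ·)}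

/-- Subexponential growth implies the Ore property. -/
def S_ORE : Prop := ∀ (K : Type) [Field K] (U : Type) [Ring U] [Algebra K U] [NoZeroDivisors U]
    (V : ℕ → Submodule K U), (∀ n, Module.Finite K (V n)) → Monotone V → (1 : U) ∈ V 0 →
  (∀ m n, ∀ a ∈ V m, ∀ b ∈ V n, a * b ∈ V (m + n)) →
  (∀ x : ℝ, 0 < x → x < 1 → ∃ C : ℝ, ∀ n, (Module.finrank K (V n) : ℝ) ≤ C * (x⁻¹) ^ n) →
  ∀ D, ∀ a ∈ V D, ∀ s ∈ V D, s ≠ 0 →
    (∃ t b : U, t ≠ 0 ∧ t * a = b * s) ∧ (∃ t b : U, t ≠ 0 ∧ a * t = s * b)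

/-- product of two increasing Lyndon words -/
def S_F2 : Prop := ∀ (α : Type) [LinearOrder α] (u v : List α), Lyn u → Lyn v → u < v → Lyn (u ++ v)

/-- factorisation of Lyndon words -/
def S_F4 : Prop := ∀ (α : Type) [LinearOrder α] (w : List α), Lyn w → 2 ≤ w.length →
  ∃ u v : List α, Lyn u ∧ Lyn v ∧ u < v ∧ w = u ++ v

/-- The spanning set given by words without long chains. -/
def S_SPAN : Prop := ∀ (K : Type) [Field K] (L : Type) [LieRing L] [LieAlgebra K L] (A : Type)
    [Ring A] [Algebra K A] (ρ : L →ₗ[K] A) (d : ℕ) (c : Equiv.Perm (Fin d) → K),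
  (∀ x y : L, ρ ⁅x, y⁆ = ρ x * ρ y - ρ y * ρ x) → c 1 = 1 →
  (∀ y : Fin d → L, ∑ σ, c σ • (List.ofFn (fun i => ρ (y (σ i)))).prod = 0) →
  ∀ (k : ℕ) (x : Fin k → L) (w : List (Fin k)),
    (w.map (fun i => ρ (x i))).prod ∈ Submodule.span K
      {z | ∃ u : List (Fin k), NoChain d u ∧ u.length = w.length ∧
        z = (u.map (fun i => ρ (x i))).prod}

/-- Words without chains are thin. -/
def S_COUNT : Prop := ∀ (d : ℕ) (α : Type) [LinearOrder α] (f : α → ℕ), (∀ a, 1 ≤ f a) →
  Thin f Set.univ → Thin (wl f) {w : List α | NoChain d w}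

/-- the filtration of the enveloping algebra by words in finitely many elements of `L` -/
noncomputable def filt (K : Type) [Field K] (L : Type) [LieRing L] [LieAlgebra K L] (k : ℕ)
    (x : Fin k → L) (n : ℕ) : Submodule K (UniversalEnvelopingAlgebra K L) :=
  Submodule.span K {z | ∃ l : List (Fin k), l.length ≤ n ∧
    z = (l.map (fun i => UniversalEnvelopingAlgebra.ι K (x i))).prod}

/-- Subexponential growth of the enveloping algebra. -/
def S_GROW : Prop := ∀ (K : Type) [Field K] (L : Type) [LieRing L] [LieAlgebra K L]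
    (d : ℕ) (c : Equiv.Perm (Fin d) → K), c 1 = 1 →
  (∀ y : Fin d → L, ∑ σ, c σ • (List.ofFn (fun i => LieAlgebra.ad K L (y (σ i)))).prod = 0) →
  ∀ (k : ℕ) (x : Fin k → L) (q : ℝ), 0 < q → q < 1 → ∃ C : ℝ, ∀ n,
    (Module.finrank K (filt K L k x n) : ℝ) ≤ C * (q⁻¹) ^ n

/-- final statement (the frozen statement S02527) -/
def S_FINAL : Prop := ∀ (K : Type) [Field K] (L : Type) [LieRing L] [LieAlgebra K L],
      (∃ f : FreeLieAlgebra K ℕ, f ≠ 0 ∧ ∀ φ : ℕ → L, FreeLieAlgebra.lift K φ f = 0) →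
        ((∀ a s : UniversalEnvelopingAlgebra K L,
            s ∈ nonZeroDivisors (UniversalEnvelopingAlgebra K L) →
              ∃ b t : UniversalEnvelopingAlgebra K L,
                t ∈ nonZeroDivisors (UniversalEnvelopingAlgebra K L) ∧ t * a = b * s) ∧
          (∀ a s : UniversalEnvelopingAlgebra K L,
            s ∈ nonZeroDivisors (UniversalEnvelopingAlgebra K L) →
              ∃ b t : UniversalEnvelopingAlgebra K L,
                t ∈ nonZeroDivisors (UniversalEnvelopingAlgebra K L) ∧ a * t = s * b))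

end H67OL
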