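import Pool.Agent.H67.OL.Defs

/-!
GROW: subexponential growth of the enveloping algebra of a PI Lie algebra (helper152)
-/

set_option autoImplicit false

namespace H67OL

attribute [local instance 100] LieRing.ofAssociativeRing

namespace GROWaux

section

variable {K : Type} [Field K] {L : Type} [LieRing L] [LieAlgebra K L] {k : ℕ}

/-- the `ad`-word -/
noncomputable def aw (K : Type) [Field K] {L : Type} [LieRing L] [LieAlgebra K L] {k : ℕ}
    (x : Fin k → L) (w : List (Fin k)) : Module.End K L :=
  (w.map (fun i => LieAlgebra.ad K L (x i))).prod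

theorem aw_nil (x : Fin k → L) : aw K x [] = 1 := rfl

theorem aw_cons (x : Fin k → L) (i : Fin k) (w : List (Fin k)) :
    aw K x (i :: w) = LieAlgebra.ad K L (x i) * aw K x w := by
  simp [aw]

theorem aw_append (x : Fin k → L) (v w : List (Fin k)) :
    aw K x (v ++ w) = aw K x v * aw K x w := by
  simp [aw]

/-- span of `ad`-words of length `m` -/
noncomputable def W (K : Type) [Field K] {L : Type} [LieRing L] [LieAlgebra K L] {k : ℕ}
    (x : Fin k → L) (m : ℕ) : Submodule K (Module.End K L) :=
  Submodule.span K {z | ∃ v : List (Fin k), v.length = m ∧ z = aw K x v}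

theorem W_left (x : Fin k → L) (m : ℕ) (i : Fin k) (T : Module.End K L) (hT : T ∈ W K x m) :
    LieAlgebra.ad K L (x i) * T ∈ W K x (m + 1) := by
  induction hT using Submodule.span_induction with
  | mem z hz =>
    obtain ⟨v, hv, rfl⟩ := hz
    exact Submodule.subset_span ⟨i :: v, by simp [hv], (aw_cons x i v).symm⟩
  | zero => rw [mul_zero]; exact Submodule.zero_mem _
  | add a b _ _ ha hb => rw [mul_add]; exact Submodule.add_mem _ ha hb
  | smul r a _ ha => rw [mul_smul_comm]; exact Submodule.smul_mem _ _ ha

theorem W_right (x : Fin k → L) (m : ℕ) (i : Fin k) (T : Module.End K L) (hT : T ∈ W K x m) :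
    T * LieAlgebra.ad K L (x i) ∈ W K x (m + 1) := by
  induction hT using Submodule.span_induction with
  | mem z hz =>
    obtain ⟨v, hv, rfl⟩ := hz
    refine Submodule.subset_span ⟨v ++ [i], by simp [hv], ?_⟩
    rw [aw_append, aw_cons, aw_nil, mul_one]
  | zero => rw [zero_mul]; exact Submodule.zero_mem _
  | add a b _ _ ha hb => rw [add_mul]; exact Submodule.add_mem _ ha hb
  | smul r a _ ha => rw [smul_mul_assoc]; exact Submodule.smul_mem _ _ ha

/-- `ad` of an iterated commutator -/
theorem ad_aw (x : Fin k → L) (w : List (Fin k)) (i : Fin k) :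
    LieAlgebra.ad K L (aw K x w (x i)) ∈ W K x (w.length + 1) := by
  induction w with
  | nil =>
    refine Submodule.subset_span ⟨[i], by simp, ?_⟩
    rw [aw_cons, aw_nil, mul_one]
    rfl
  | cons j w ih =>
    rw [aw_cons]
    have h1 : (LieAlgebra.ad K L (x j) * aw K x w) (x i) = ⁅x j, aw K x w (x i)⁆ := rfl
    have h2 : LieAlgebra.ad K L ⁅x j, aw K x w (x i)⁆ =
        LieAlgebra.ad K L (x j) * LieAlgebra.ad K L (aw K x w (x i)) -
        LieAlgebra.ad K L (aw K x w (x i)) * LieAlgebra.ad K L (x j) := by
      rw [LieHom.map_lie]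
      rfl
    rw [h1, h2]
    exact Submodule.sub_mem _ (W_left x _ j _ ih) (W_right x _ j _ ih)

/-- span of the `ad`-words of length `m` applied to generators -/
noncomputable def Ev (K : Type) [Field K] {L : Type} [LieRing L] [LieAlgebra K L] {k : ℕ}
    (x : Fin k → L) (m : ℕ) : Submodule K L :=
  Submodule.span K {z | ∃ (v : List (Fin k)) (i : Fin k), v.length + 1 = m ∧ z = aw K x v (x i)}

theorem W_app (x : Fin k → L) (m : ℕ) (T : Module.End K L) (hT : T ∈ W K x m)
    (w : List (Fin k)) (i : Fin k) : T (aw K x w (x i)) ∈ Ev K x (m + (w.length + 1)) := by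
  induction hT using Submodule.span_induction with
  | mem z hz =>
    obtain ⟨v, hv, rfl⟩ := hz
    refine Submodule.subset_span ⟨v ++ w, i, by simp [hv]; omega, ?_⟩
    rw [aw_append]
    rfl
  | zero => rw [LinearMap.zero_apply]; exact Submodule.zero_mem _
  | add a b _ _ ha hb => rw [LinearMap.add_apply]; exact Submodule.add_mem _ ha hb
  | smul r a _ ha => rw [LinearMap.smul_apply]; exact Submodule.smul_mem _ _ ha

theorem lie_mem (x : Fin k → L) (v w : List (Fin k)) (i j : Fin k) :
    ⁅aw K x v (x i), aw K x w (x j)⁆ ∈ Ev K x ((v.length + 1) + (w.length + 1)) :=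
  W_app x _ _ (ad_aw x v i) w j

/-- words without chains suffice -/
theorem Ev_le (x : Fin k → L) (d : ℕ)
    (h : ∀ w : List (Fin k), aw K x w ∈ Submodule.span K
      {z | ∃ u : List (Fin k), NoChain d u ∧ u.length = w.length ∧ z = aw K x u}) (m : ℕ)
    (z : L) (hz : z ∈ Ev K x m) : z ∈ Submodule.span K
      {z | ∃ (v : List (Fin k)) (i : Fin k), NoChain d v ∧ v.length + 1 = m ∧
        z = aw K x v (x i)} := by
  induction hz using Submodule.span_induction with
  | mem z hz =>
    obtain ⟨v, i, hv, rfl⟩ := hz
    have h1 := h v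
    generalize aw K x v = T at h1
    induction h1 using Submodule.span_induction with
    | mem z hz =>
      obtain ⟨u, hu, hl, rfl⟩ := hz
      exact Submodule.subset_span ⟨u, i, hu, by omega, rfl⟩
    | zero => rw [LinearMap.zero_apply]; exact Submodule.zero_mem _
    | add a b _ _ ha hb => rw [LinearMap.add_apply]; exact Submodule.add_mem _ ha hb
    | smul r a _ ha => rw [LinearMap.smul_apply]; exact Submodule.smul_mem _ _ ha
  | zero => exact Submodule.zero_mem _
  | add a b _ _ ha hb => exact Submodule.add_mem _ ha hb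
  | smul r a _ ha => exact Submodule.smul_mem _ _ ha

end

/-- index set -/
abbrev B (k d : ℕ) : Type := Lex ({w : List (Fin k) // NoChain d w} × Fin k)

/-- weight -/
def fB {k d : ℕ} (b : B k d) : ℕ := (ofLex b).1.1.length + 1

theorem thinB (h : S_COUNT) (k d : ℕ) : Thin (fB (k := k) (d := d)) Set.univ := by
  intro q hq hq1
  have h1 := h d (Fin k) (fun _ => 1) (fun _ => le_refl _) (by
    intro q hq hq1
    exact Summable.of_finite) q hq hq1
  have h2 : Summable (fun _ : Fin k => q) := Summable.of_finite
  have h3 := Summable.mul_of_nonneg h1 h2 (fun _ => by positivity) (fun _ => hq.le)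
  have h4 : Summable (fun b : B k d => q ^ fB b) := by
    have e : (fun b : {w : List (Fin k) // NoChain d w} × Fin k =>
        q ^ wl (fun _ => 1) (b.1 : List (Fin k)) * q) =
        (fun b : B k d => q ^ fB b) ∘ (toLex : _ ≃ B k d) := by
      funext b
      simp [fB, wl, pow_succ]
    have h5 : Summable ((fun b : B k d => q ^ fB b) ∘ (toLex : _ ≃ B k d)) := by
      rw [← e]
      exact h3
    exact (Equiv.summable_iff _).1 h5
  exact h4.subtype _

/-- a thin set has few elements of small weight -/
theorem thin_card {α : Type} (f : α → ℕ) (S : Set α) (h : Thin f S) (q : ℝ) (hq : 0 < q)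
    (hq1 : q < 1) : ∃ C : ℝ, ∀ n : ℕ, {a | a ∈ S ∧ f a ≤ n}.Finite ∧
      (({a | a ∈ S ∧ f a ≤ n}.ncard : ℕ) : ℝ) ≤ C * (q⁻¹) ^ n := by
  have hs := h q hq hq1
  refine ⟨∑' a : S, q ^ f a, fun n => ?_⟩
  have key : ∀ T : Finset α, (∀ a ∈ T, a ∈ S ∧ f a ≤ n) →
      (T.card : ℝ) ≤ (∑' a : S, q ^ f a) * (q⁻¹) ^ n := by
    classical
    intro T hT
    have h1 : ∑ a ∈ T.subtype (· ∈ S), q ^ f (a : α) ≤ ∑' a : S, q ^ f a :=
      hs.sum_le_tsum _ (fun _ _ => by positivity)
    have h2 : (T.card : ℝ) * q ^ n ≤ ∑ a ∈ T.subtype (· ∈ S), q ^ f (a : α) := by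
      have h3 : (T.subtype (· ∈ S)).card = T.card := by
        rw [Finset.card_subtype]
        congr 1
        apply Finset.filter_true_of_mem
        exact fun a ha => (hT a ha).1
      rw [← h3, ← nsmul_eq_mul]
      apply Finset.card_nsmul_le_sum
      intro a ha
      rw [Finset.mem_subtype] at ha
      exact pow_le_pow_of_le_one hq.le hq1.le (hT a ha).2
    rw [inv_pow]
    rw [← div_eq_mul_inv, le_div_iff₀ (by positivity)]
    exact h2.trans h1
  have hfin : {a | a ∈ S ∧ f a ≤ n}.Finite := by
    by_contra hinf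
    obtain ⟨T, hT, hc⟩ := Set.Infinite.exists_subset_card_eq hinf
      (⌈(∑' a : S, q ^ f a) * (q⁻¹) ^ n⌉₊ + 1)
    have h1 := key T (fun a ha => hT ha)
    rw [hc] at h1
    push_cast at h1
    have h2 := Nat.le_ceil ((∑' a : S, q ^ f a) * (q⁻¹) ^ n)
    linarith
  refine ⟨hfin, ?_⟩
  have h1 := key hfin.toFinset (fun a ha => by simpa using ha)
  rw [Set.ncard_eq_toFinset_card _ hfin]
  exact h1

end GROWaux

open GROWaux

theorem noChain_zero {α : Type} [LinearOrder α] (w : List α) : ¬ NoChain 0 w := by
  intro h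
  apply h
  exact ⟨w, [], [], rfl, by simp, by simp, by simp⟩

theorem noChain_nil {α : Type} [LinearOrder α] (d : ℕ) (hd : 0 < d) :
    NoChain d ([] : List α) := by
  rintro ⟨p, q, F, h1, h2, _, h4⟩
  have h5 : F.flatten = [] := by
    have := h4.symm
    simp only [List.append_eq_nil_iff] at this
    exact this.1.2
  rcases F with _ | ⟨l, F⟩
  · simp at h1
    omega
  · have h6 : l = [] := by
      simp at h5
      exact h5.1
    exact (h2 l (by simp)).1 h6

theorem t_GROW (h1 : S_SPAN) (h2 : S_SORT) (h3 : S_MULT) (h4 : S_COUNT) : S_GROW := by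
  intro K _ L _ _ d c hc hid k x q hq hq1
  have hspan : ∀ w : List (Fin k), aw K x w ∈ Submodule.span K
      {z | ∃ u : List (Fin k), NoChain d u ∧ u.length = w.length ∧ z = aw K x u} := by
    intro w
    exact h1 K L (Module.End K L) (LieAlgebra.ad K L : L →ₗ[K] Module.End K L) d c (by
      intro a b
      show LieAlgebra.ad K L ⁅a, b⁆ = _
      rw [LieHom.map_lie]
      rfl) hc hid k x w
  by_cases hd : d = 0
  · subst hd
    -- everything is trivial
    have h5 : (1 : Module.End K L) = 0 := by
      have h6 := hspan []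
      rw [aw_nil] at h6
      have h7 : {z : Module.End K L | ∃ u : List (Fin k), NoChain 0 u ∧
          u.length = ([] : List (Fin k)).length ∧ z = aw K x u} = ∅ := by
        ext z
        simp only [Set.mem_setOf_eq, Set.mem_empty_iff_false, iff_false]
        rintro ⟨u, hu, _⟩
        exact noChain_zero u hu
      rw [h7, Submodule.span_empty, Submodule.mem_bot] at h6
      exact h6
    have hL : ∀ y : L, y = 0 := by
      intro y
      have h8 := DFunLike.congr_fun h5 y
      simpa using h8
    refine ⟨1, fun n => ?_⟩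
    have h9 : filt K L k x n ≤ Submodule.span K {(1 : UniversalEnvelopingAlgebra K L)} := by
      unfold filt
      rw [Submodule.span_le]
      rintro z ⟨l, _, rfl⟩
      rcases l with _ | ⟨i, l⟩
      · exact Submodule.subset_span (by simp)
      · have : (List.map (fun i => UniversalEnvelopingAlgebra.ι K (x i)) (i :: l)).prod = 0 := by
          rw [List.map_cons, List.prod_cons, hL (x i), map_zero, zero_mul]
        rw [this]
        exact Submodule.zero_mem _
    have h10 : Module.finrank K (filt K L k x n) ≤ 1 := by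
      refine (Submodule.finrank_mono h9).trans ?_
      exact (finrank_span_le_card _).trans (by simp)
    have h11 : (1 : ℝ) ≤ (q⁻¹) ^ n := one_le_pow₀ ((one_le_inv₀ hq).2 hq1.le)
    have h12 : (Module.finrank K (filt K L k x n) : ℝ) ≤ 1 := by exact_mod_cast h10
    linarith
  · have hd' : 0 < d := Nat.pos_of_ne_zero hd
    -- the basis-like family
    set bB : B k d → L := fun b => aw K x (ofLex b).1.1 (x (ofLex b).2) with hbB
    set g : B k d → UniversalEnvelopingAlgebra K L :=
      fun b => UniversalEnvelopingAlgebra.ι K (bB b) with hg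
    have hcomm : ∀ β γ, g β * g γ - g γ * g β ∈
        Submodule.span K {z | ∃ δ, fB δ ≤ fB β + fB γ ∧ z = g δ} := by
      intro β γ
      have e1 : g β * g γ - g γ * g β = UniversalEnvelopingAlgebra.ι K ⁅bB β, bB γ⁆ := by
        rw [LieHom.map_lie]
        rfl
      rw [e1]
      have e2 := Ev_le x d hspan _ _ (lie_mem x (ofLex β).1.1 (ofLex γ).1.1 (ofLex β).2
        (ofLex γ).2)
      have e3 : ⁅bB β, bB γ⁆ = ⁅aw K x (ofLex β).1.1 (x (ofLex β).2),
        aw K x (ofLex γ).1.1 (x (ofLex γ).2)⁆ := rfl
      rw [← e3] at e2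
      generalize ⁅bB β, bB γ⁆ = y at e2
      induction e2 using Submodule.span_induction with
      | mem z hz =>
        obtain ⟨v, i, hv, hl, rfl⟩ := hz
        exact Submodule.subset_span ⟨toLex (⟨v, hv⟩, i), by simp [fB]; omega, by simp [hg, hbB]⟩
      | zero => rw [map_zero]; exact Submodule.zero_mem _
      | add a b _ _ ha hb => rw [map_add]; exact Submodule.add_mem _ ha hb
      | smul r a _ ha => rw [map_smul]; exact Submodule.smul_mem _ _ ha
    have hsort := h2 K (UniversalEnvelopingAlgebra K L) (B k d) g fB hcomm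
    have hthin := h3 (B k d) fB (fun b => by simp [fB]) (thinB h4 k d)
    obtain ⟨C, hC⟩ := thin_card _ _ hthin q hq hq1
    refine ⟨C, fun n => ?_⟩
    obtain ⟨hfin, hcard⟩ := hC n
    have hle : filt K L k x n ≤ Submodule.span K
        (((fun m : List (B k d) => (m.map g).prod)) ''
          {m | m ∈ {l : List (B k d) | l.Pairwise (· ≤ ·)} ∧ wl fB m ≤ n}) := by
      unfold filt
      rw [Submodule.span_le]
      rintro z ⟨l, hl, rfl⟩
      set b0 : Fin k → B k d := fun i => toLex (⟨[], noChain_nil d hd'⟩, i) with hb0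
      have e1 : (l.map (fun i => UniversalEnvelopingAlgebra.ι K (x i))) = (l.map b0).map g := by
        rw [List.map_map]
        apply List.map_congr_left
        intro i _
        simp [hg, hbB, hb0, aw_nil]
      have e2 : wl fB (l.map b0) = l.length := by
        unfold wl
        rw [List.map_map]
        have : (fB ∘ b0) = fun _ => 1 := by
          funext i
          simp [fB, hb0]
        rw [this]
        simp
      rw [e1]
      have e3 := hsort (l.map b0)
      refine Submodule.span_mono ?_ e3
      rintro z ⟨m, hm1, hm2, rfl⟩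
      exact ⟨m, ⟨hm1, by omega⟩, rfl⟩
    have hfin' := hfin.image (fun m : List (B k d) => (m.map g).prod)
    have hdim : Module.finrank K (Submodule.span K
        (((fun m : List (B k d) => (m.map g).prod)) ''
          {m | m ∈ {l : List (B k d) | l.Pairwise (· ≤ ·)} ∧ wl fB m ≤ n})) ≤
        {m | m ∈ {l : List (B k d) | l.Pairwise (· ≤ ·)} ∧ wl fB m ≤ n}.ncard := by
      haveI := hfin'.fintype
      refine (finrank_span_le_card _).trans ?_
      rw [← Set.ncard_eq_toFinset_card']
      exact Set.ncard_image_le hfin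
    haveI : Module.Finite K (Submodule.span K
        (((fun m : List (B k d) => (m.map g).prod)) ''
          {m | m ∈ {l : List (B k d) | l.Pairwise (· ≤ ·)} ∧ wl fB m ≤ n})) :=
      Module.Finite.span_of_finite K hfin'
    have := (Submodule.finrank_mono hle).trans hdim
    calc (Module.finrank K (filt K L k x n) : ℝ) ≤ _ := by exact_mod_cast this
      _ ≤ _ := hcard

end H67OL
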