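import Pool.Agent.H67.OL.Defs

/-!
# Linearisation of an identity that holds on a subspace
-/

set_option autoImplicit false

namespace H67OL

open Finset

theorem LIN_eval {K : Type} [Field K] {A : Type} [Ring A] [Algebra K A] (F : FreeAlgebra K ℕ)
    (φ : ℕ → A) : FreeAlgebra.lift K φ F =
      ∑ u ∈ (FreeAlgebra.equivMonoidAlgebraFreeMonoid F).coeff.support,
        (FreeAlgebra.equivMonoidAlgebraFreeMonoid F).coeff u • (u.toList.map φ).prod := by
  have h : (FreeAlgebra.lift K φ : FreeAlgebra K ℕ →ₐ[K] A) =
      (MonoidAlgebra.lift K A (FreeMonoid ℕ) (FreeMonoid.lift φ)).comp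
        (FreeAlgebra.equivMonoidAlgebraFreeMonoid (R := K) (X := ℕ)).toAlgHom := by
    ext
    simp [FreeAlgebra.equivMonoidAlgebraFreeMonoid]
  rw [h]
  simp only [AlgHom.comp_apply, MonoidAlgebra.lift_apply, Finsupp.sum, FreeMonoid.lift_apply]
  rfl

open Classical in
theorem LIN_expand (K : Type) [Field K] {A : Type} [Ring A] [Algebra K A] {n ℓ : ℕ} (w : Fin n → ℕ)
    (y : Fin n → A) (T : Finset (Fin n)) (u : Fin ℓ → ℕ) :
    ((List.ofFn u).map (fun i => ∑ j ∈ Finset.univ.filter (fun j => j ∉ T ∧ w j = i), y j)).prod =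
      ∑ r : Fin ℓ → Fin n, if (∀ t, w (r t) = u t) ∧ ∀ t, r t ∉ T then
        (List.ofFn (fun t => y (r t))).prod else 0 := by
  rw [List.map_ofFn]
  have h := (MultilinearMap.mkPiAlgebraFin K ℓ A).map_sum_finset (fun (_ : Fin ℓ) j => y j)
    (fun t => Finset.univ.filter (fun j => j ∉ T ∧ w j = u t))
  rw [MultilinearMap.mkPiAlgebraFin_apply] at h
  refine h.trans ?_
  rw [← Finset.sum_filter]
  apply Finset.sum_congr
  · ext r
    simp only [Fintype.mem_piFinset, Finset.mem_filter, Finset.mem_univ, true_and]
    constructor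
    · intro h1
      exact ⟨fun t => (h1 t).2, fun t => (h1 t).1⟩
    · intro h1 t
      exact ⟨h1.2 t, h1.1 t⟩
  · intro r _
    rw [MultilinearMap.mkPiAlgebraFin_apply]

theorem LIN_sign (K : Type) [Field K] {n ℓ : ℕ} (r : Fin ℓ → Fin n) [DecidablePred fun T : Finset (Fin n) => ∀ t, r t ∉ T]
    [Decidable (Function.Surjective r)] :
    ∑ T : Finset (Fin n), (if ∀ t, r t ∉ T then (-1 : K) ^ T.card else 0) =
      if Function.Surjective r then 1 else 0 := by
  have h1 : ∑ T : Finset (Fin n), (if ∀ t, r t ∉ T then (-1 : K) ^ T.card else 0) =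
      ∑ T ∈ (Finset.univ \ Finset.univ.image r).powerset, (-1 : K) ^ T.card := by
    rw [← Finset.sum_filter]
    apply Finset.sum_congr _ (fun _ _ => rfl)
    ext T
    simp only [Finset.mem_filter, Finset.mem_univ, true_and, Finset.mem_powerset]
    constructor
    · intro h j hj
      rw [Finset.mem_sdiff, Finset.mem_image]
      refine ⟨Finset.mem_univ _, ?_⟩
      rintro ⟨t, -, rfl⟩
      exact h t hj
    · intro h t ht
      have := h ht
      rw [Finset.mem_sdiff, Finset.mem_image] at this
      exact this.2 ⟨t, Finset.mem_univ _, rfl⟩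
  have h2 : ∑ T ∈ (Finset.univ \ Finset.univ.image r).powerset, (-1 : K) ^ T.card =
      ((∑ T ∈ (Finset.univ \ Finset.univ.image r).powerset, (-1 : ℤ) ^ T.card : ℤ) : K) := by
    push_cast
    rfl
  rw [h1, h2, Finset.sum_powerset_neg_one_pow_card]
  have h3 : (Finset.univ \ Finset.univ.image r = ∅) ↔ Function.Surjective r := by
    rw [Finset.sdiff_eq_empty_iff_subset]
    constructor
    · intro h j
      have := h (Finset.mem_univ j)
      rw [Finset.mem_image] at this
      obtain ⟨t, -, ht⟩ := this
      exact ⟨t, ht⟩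
    · intro h j _
      obtain ⟨t, ht⟩ := h j
      rw [Finset.mem_image]
      exact ⟨t, Finset.mem_univ _, ht⟩
  by_cases h : Function.Surjective r
  · rw [if_pos h, if_pos (h3.2 h)]
    norm_num
  · rw [if_neg h, if_neg (fun h' => h (h3.1 h'))]
    norm_num

open Classical in
theorem LIN_signed (K : Type) [Field K] {A : Type} [Ring A] [Algebra K A] {n ℓ : ℕ} (hℓ : ℓ ≤ n)
    (w : Fin n → ℕ) (y : Fin n → A) (u : Fin ℓ → ℕ) :
    ∑ T : Finset (Fin n), ((-1 : K) ^ T.card) •
      ((List.ofFn u).map
        (fun i => ∑ j ∈ Finset.univ.filter (fun j => j ∉ T ∧ w j = i), y j)).prod =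
      ∑ σ : Equiv.Perm (Fin n), if List.ofFn (fun i => w (σ i)) = List.ofFn u then
        (List.ofFn (fun i => y (σ i))).prod else 0 := by
  simp only [LIN_expand K, Finset.smul_sum]
  rw [Finset.sum_comm]
  have h1 : ∀ r : Fin ℓ → Fin n, ∑ T : Finset (Fin n), ((-1 : K) ^ T.card) •
      (if (∀ t, w (r t) = u t) ∧ ∀ t, r t ∉ T then
        (List.ofFn (fun t => y (r t))).prod else 0) =
      if (∀ t, w (r t) = u t) ∧ Function.Surjective r then
        (List.ofFn (fun t => y (r t))).prod else 0 := by
    intro r
    by_cases hw : ∀ t, w (r t) = u t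
    · simp only [hw, implies_true, true_and]
      have h2 : ∀ T : Finset (Fin n), ((-1 : K) ^ T.card) •
          (if ∀ t, r t ∉ T then (List.ofFn (fun t => y (r t))).prod else 0) =
          (if ∀ t, r t ∉ T then (-1 : K) ^ T.card else 0) • (List.ofFn (fun t => y (r t))).prod := by
        intro T
        split_ifs
        · rfl
        · rw [smul_zero, zero_smul]
      rw [Finset.sum_congr rfl (fun T _ => h2 T), ← Finset.sum_smul, LIN_sign K r]
      split_ifs
      · rw [one_smul]
      · rw [zero_smul]
    · simp only [hw, false_and, if_false, smul_zero, Finset.sum_const_zero]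
  rw [Finset.sum_congr rfl (fun r _ => h1 r)]
  rcases hℓ.lt_or_eq with h | h
  · rw [Finset.sum_eq_zero, Finset.sum_eq_zero]
    · intro σ _
      rw [if_neg]
      intro h2
      have := congrArg List.length h2
      rw [List.length_ofFn, List.length_ofFn] at this
      omega
    · intro r _
      rw [if_neg]
      rintro ⟨-, h2⟩
      have := Fintype.card_le_of_surjective r h2
      rw [Fintype.card_fin, Fintype.card_fin] at this
      omega
  · subst h
    symm
    rw [← Finset.sum_filter, ← Finset.sum_filter]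
    refine Finset.sum_bij (fun σ _ => ⇑σ) ?_ ?_ ?_ ?_
    · intro σ hσ
      rw [Finset.mem_filter] at hσ ⊢
      exact ⟨Finset.mem_univ _, fun t => congrFun (List.ofFn_injective hσ.2) t, σ.surjective⟩
    · intro σ _ τ _ h2
      exact DFunLike.coe_injective h2
    · intro r hr
      rw [Finset.mem_filter] at hr
      refine ⟨Equiv.ofBijective r ⟨Finite.injective_iff_surjective.2 hr.2.2, hr.2.2⟩, ?_, rfl⟩
      rw [Finset.mem_filter]
      refine ⟨Finset.mem_univ _, ?_⟩
      congr 1
      funext t
      exact hr.2.1 t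
    · intro σ _
      rfl

theorem t_LIN : S_LIN := by
  classical
  intro K _ A _ _ S F hF hid
  set G := FreeAlgebra.equivMonoidAlgebraFreeMonoid F with hG
  have hG0 : G.coeff.support.Nonempty := by
    rw [Finsupp.support_nonempty_iff]
    intro h
    apply hF
    have h1 : G = 0 := by
      ext u
      rw [h]
      rfl
    rw [hG] at h1
    exact (map_eq_zero_iff _ FreeAlgebra.equivMonoidAlgebraFreeMonoid.injective).1 h1
  obtain ⟨w0, hw0, hmax⟩ := Finset.exists_max_image G.coeff.support
    (fun u => u.toList.length) hG0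
  set n := w0.toList.length with hn
  set w : Fin n → ℕ := fun i => w0.toList.get i with hw
  have hc0 : G.coeff w0 ≠ 0 := Finsupp.mem_support_iff.1 hw0
  have hofn : List.ofFn w = w0.toList := List.ofFn_get _
  refine ⟨n, fun σ => (G.coeff w0)⁻¹ * G.coeff (FreeMonoid.ofList (List.ofFn (fun i => w (σ i)))),
    ?_, ?_⟩
  · have : FreeMonoid.ofList (List.ofFn (fun i => w ((1 : Equiv.Perm (Fin n)) i))) = w0 := by
      have h1 : (fun i => w ((1 : Equiv.Perm (Fin n)) i)) = w := rfl
      rw [h1, hofn, FreeMonoid.ofList_toList]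
    simp only [this]
    exact inv_mul_cancel₀ hc0
  · intro y hy
    have h1 : ∀ T : Finset (Fin n), FreeAlgebra.lift K
        (fun i => ∑ j ∈ Finset.univ.filter (fun j => j ∉ T ∧ w j = i), y j) F = 0 := by
      intro T
      apply hid
      intro i
      exact Submodule.sum_mem _ (fun j _ => hy j)
    have h2 : ∑ T : Finset (Fin n), ((-1 : K) ^ T.card) • FreeAlgebra.lift K
        (fun i => ∑ j ∈ Finset.univ.filter (fun j => j ∉ T ∧ w j = i), y j) F = 0 := by
      apply Finset.sum_eq_zero
      intro T _
      rw [h1, smul_zero]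
    simp only [LIN_eval, ← hG, Finset.smul_sum] at h2
    rw [Finset.sum_comm] at h2
    have h3 : ∀ u ∈ G.coeff.support, ∑ T : Finset (Fin n), ((-1 : K) ^ T.card) • G.coeff u •
        (u.toList.map
          (fun i => ∑ j ∈ Finset.univ.filter (fun j => j ∉ T ∧ w j = i), y j)).prod =
        ∑ σ : Equiv.Perm (Fin n), if FreeMonoid.ofList (List.ofFn (fun i => w (σ i))) = u then
          G.coeff u • (List.ofFn (fun i => y (σ i))).prod else 0 := by
      intro u hu
      have h4 := LIN_signed K (hmax u hu) w y (fun i => u.toList.get i)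
      rw [List.ofFn_get] at h4
      simp only [smul_comm _ (G.coeff u)]
      rw [← Finset.smul_sum, h4, Finset.smul_sum]
      apply Finset.sum_congr rfl
      intro σ _
      by_cases h5 : List.ofFn (fun i => w (σ i)) = u.toList
      · rw [if_pos h5, if_pos (by rw [h5, FreeMonoid.ofList_toList])]
      · rw [if_neg h5, if_neg, smul_zero]
        intro h6
        apply h5
        rw [← h6, FreeMonoid.toList_ofList]
    rw [Finset.sum_congr rfl h3, Finset.sum_comm] at h2
    have h5 : ∀ σ : Equiv.Perm (Fin n), (∑ u ∈ G.coeff.support,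
        if FreeMonoid.ofList (List.ofFn (fun i => w (σ i))) = u then
          G.coeff u • (List.ofFn (fun i => y (σ i))).prod else 0) =
        G.coeff (FreeMonoid.ofList (List.ofFn (fun i => w (σ i)))) •
          (List.ofFn (fun i => y (σ i))).prod := by
      intro σ
      rw [Finset.sum_ite_eq]
      split_ifs with h6
      · rfl
      · rw [Finsupp.notMem_support_iff.1 h6, zero_smul]
    rw [Finset.sum_congr rfl (fun σ _ => h5 σ)] at h2
    have h6 := congrArg (fun z => (G.coeff w0)⁻¹ • z) h2
    simp only [smul_zero, Finset.smul_sum, smul_smul] at h6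
    exact h6

end H67OL
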