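import Mathlib
import Pool.Agent.H67.OL.Defs

/-! Multisets over a thin alphabet are thin. -/

set_option autoImplicit false

namespace H67OL

theorem MULT_g {B : Type} (f : B → ℕ) (hf : ∀ b, 1 ≤ f b) (x : ℝ) (hx : 0 < x) (hx1 : x < 1)
    (hs : Summable (fun b => x ^ f b)) : Summable (fun p : B × ℕ => (x ^ f p.1) ^ (p.2 + 1)) := by
  rw [summable_prod_of_nonneg (fun p => by positivity)]
  have hr : ∀ b, x ^ f b ≤ x := fun b => by
    calc x ^ f b ≤ x ^ 1 := pow_le_pow_of_le_one hx.le hx1.le (hf b)
      _ = x := pow_one x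
  have hr1 : ∀ b, x ^ f b < 1 := fun b => lt_of_le_of_lt (hr b) hx1
  have hgeo : ∀ b, HasSum (fun k : ℕ => (x ^ f b) ^ (k + 1)) ((x ^ f b) * (1 - x ^ f b)⁻¹) := by
    intro b
    have := (hasSum_geometric_of_lt_one (by positivity) (hr1 b)).mul_left (x ^ f b)
    simpa only [pow_succ'] using this
  refine ⟨fun b => (hgeo b).summable, ?_⟩
  have e : (fun b => ∑' k : ℕ, (x ^ f b) ^ (k + 1)) = fun b => (x ^ f b) * (1 - x ^ f b)⁻¹ :=
    funext fun b => (hgeo b).tsum_eq
  simp only
  rw [e]
  refine Summable.of_nonneg_of_le (fun b => ?_) (fun b => ?_) (hs.mul_right (1 - x)⁻¹)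
  · have := hr1 b
    have : 0 < 1 - x ^ f b := by linarith
    positivity
  · have h1 := hr b
    have : 0 < 1 - x := by linarith
    gcongr

/-- the finite set of pairs that codes a list -/
def MULT_code {B : Type} [DecidableEq B] (l : List B) : Finset (B × ℕ) :=
  l.toFinset.image (fun b => (b, l.count b - 1))

theorem MULT_prod {B : Type} [DecidableEq B] (f : B → ℕ) (x : ℝ) (l : List B) :
    ∏ p ∈ MULT_code l, (x ^ f p.1) ^ (p.2 + 1) = x ^ wl f l := by
  unfold MULT_code
  rw [Finset.prod_image (fun a _ b _ h => (Prod.mk.inj h).1)]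
  have h1 : ∀ b ∈ l.toFinset, (x ^ f b) ^ (l.count b - 1 + 1) = x ^ (l.count b * f b) := by
    intro b hb
    have : 0 < l.count b := List.count_pos_iff.2 (List.mem_toFinset.1 hb)
    rw [Nat.sub_add_cancel this, ← pow_mul, mul_comm]
  simp only
  rw [Finset.prod_congr rfl h1, Finset.prod_pow_eq_pow_sum]
  congr 1
  unfold wl
  rw [Finset.sum_list_map_count]
  simp [smul_eq_mul]

theorem MULT_inj {B : Type} [LinearOrder B] (l l' : List B) (hl : l.Pairwise (· ≤ ·))
    (hl' : l'.Pairwise (· ≤ ·)) (h : MULT_code l = MULT_code l') : l = l' := by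
  have hc : ∀ (l : List B) (b : B) (k : ℕ), (b, k) ∈ MULT_code l ↔ l.count b = k + 1 := by
    intro l b k
    unfold MULT_code
    rw [Finset.mem_image]
    constructor
    · rintro ⟨a, ha, hab⟩
      obtain ⟨rfl, rfl⟩ := Prod.mk.inj hab
      have : 0 < l.count a := List.count_pos_iff.2 (List.mem_toFinset.1 ha)
      omega
    · intro hk
      refine ⟨b, ?_, ?_⟩
      · rw [List.mem_toFinset, ← List.count_pos_iff]; omega
      · rw [hk]; rfl
  have hcount : ∀ b, l.count b = l'.count b := by
    intro b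
    rcases Nat.eq_zero_or_pos (l.count b) with h0 | h0
    · rcases Nat.eq_zero_or_pos (l'.count b) with h1 | h1
      · rw [h0, h1]
      · have := (hc l' b (l'.count b - 1)).2 (by omega)
        rw [← h, hc] at this
        omega
    · have := (hc l b (l.count b - 1)).2 (by omega)
      rw [h, hc] at this
      omega
  have hp : l.Perm l' := List.perm_iff_count.2 hcount
  exact hp.eq_of_pairwise (fun a b _ _ h1 h2 => le_antisymm h1 h2) hl hl'

theorem t_MULT : S_MULT := by
  intro B _ f hf hthin x hx hx1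
  have hs : Summable (fun b => x ^ f b) := by
    have h1 := hthin x hx hx1
    have h2 := h1.comp_injective (Equiv.Set.univ B).symm.injective
    exact h2
  have h2 := summable_finsetProd_of_summable_nonneg (fun p => by positivity) (MULT_g f hf x hx hx1 hs)
  have h3 := h2.comp_injective (i := fun l : {l : List B | l.Pairwise (· ≤ ·)} => MULT_code l.1)
    (fun l l' h => Subtype.ext (MULT_inj l.1 l'.1 l.2 l'.2 h))
  refine h3.congr fun l => ?_
  exact (MULT_prod f x l.1)

end H67OL
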