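import Pool.Agent.H67.OL.Defs

set_option autoImplicit false

namespace H67OL

theorem ORE_step (K : Type) [Field K] (U : Type) [Ring U] [Algebra K U]
    (V W : Submodule K U) [Module.Finite K V] [Module.Finite K W]
    (f : (U × U) →ₗ[K] U) (hf : ∀ p, f p = 0 → p = 0)
    (h : ∀ a ∈ V, ∀ b ∈ V, f (a, b) ∈ W) :
    2 * Module.finrank K V ≤ Module.finrank K W := by
  let g : (V × V) →ₗ[K] W := LinearMap.codRestrict W
    (f.comp (LinearMap.prodMap V.subtype V.subtype)) (fun c => h _ c.1.2 _ c.2.2)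
  have hg : Function.Injective g := by
    rw [← LinearMap.ker_eq_bot, LinearMap.ker_eq_bot']
    intro p hp
    have h1 : f (p.1.1, p.2.1) = 0 := by
      have := congrArg Subtype.val hp
      exact this
    have h2 := hf _ h1
    rw [Prod.ext_iff] at h2
    apply Prod.ext
    · exact Subtype.ext h2.1
    · exact Subtype.ext h2.2
  have h3 := LinearMap.finrank_le_finrank_of_injective hg
  rw [Module.finrank_prod] at h3
  omega

theorem ORE_core (K : Type) [Field K] (U : Type) [Ring U] [Algebra K U] [Nontrivial U]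
    (V : ℕ → Submodule K U) (hfin : ∀ n, Module.Finite K (V n)) (h1 : (1 : U) ∈ V 0)
    (hg : ∀ x : ℝ, 0 < x → x < 1 → ∃ C : ℝ, ∀ n, (Module.finrank K (V n) : ℝ) ≤ C * (x⁻¹) ^ n)
    (E : ℕ) (hE : 1 ≤ E) (f : (U × U) →ₗ[K] U)
    (h : ∀ n, ∀ a ∈ V n, ∀ b ∈ V n, f (a, b) ∈ V (n + E)) :
    ∃ p : U × U, p ≠ 0 ∧ f p = 0 := by
  by_contra hno
  have hf : ∀ p, f p = 0 → p = 0 := by
    intro p hp
    by_contra hp0
    exact hno ⟨p, hp0, hp⟩
  have hstep : ∀ m, 2 ^ m ≤ Module.finrank K (V (m * E)) := by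
    intro m
    induction m with
    | zero =>
      have := hfin 0
      rw [Nat.zero_mul, pow_zero]
      have : (⟨1, h1⟩ : V 0) ≠ 0 := by
        intro h0
        exact one_ne_zero (congrArg Subtype.val h0)
      have : Nontrivial (V 0) := ⟨⟨_, _, this⟩⟩
      exact Module.finrank_pos
    | succ m ih =>
      have := hfin (m * E)
      have := hfin (m * E + E)
      have := ORE_step K U (V (m * E)) (V (m * E + E)) f hf (h (m * E))
      rw [Nat.succ_mul, pow_succ]
      omega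
  have hE' : (1 : ℝ) ≤ (E : ℝ) := by exact_mod_cast hE
  have hE0 : (0 : ℝ) < (E : ℝ) := by linarith
  set x : ℝ := 1 + -(1 / (4 * (E : ℝ))) with hx
  have hd0 : 0 < 1 / (4 * (E : ℝ)) := by positivity
  have hd1 : 1 / (4 * (E : ℝ)) ≤ 1 / 4 := by
    apply one_div_le_one_div_of_le (by norm_num)
    linarith
  have hx0 : 0 < x := by rw [hx]; linarith
  have hx1 : x < 1 := by rw [hx]; linarith
  have hxE : 3 / 4 ≤ x ^ E := by
    have h5 := one_add_mul_le_pow (a := -(1 / (4 * (E : ℝ)))) (by linarith) E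
    have h6 : 1 + (E : ℝ) * -(1 / (4 * (E : ℝ))) = 3 / 4 := by
      field_simp
      norm_num
    rw [h6] at h5
    exact h5
  obtain ⟨C, hC⟩ := hg x hx0 hx1
  have hinv : (x⁻¹) ^ E ≤ 4 / 3 := by
    rw [inv_pow]
    rw [inv_le_comm₀ (by positivity) (by norm_num)]
    norm_num
    linarith
  have hb : ∀ m : ℕ, (3 / 2 : ℝ) ^ m ≤ C := by
    intro m
    have h7 := hC (m * E)
    have h8 : (2 : ℝ) ^ m ≤ (Module.finrank K (V (m * E)) : ℝ) := by exact_mod_cast hstep m
    have hC0 : 0 ≤ C := by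
      by_contra hneg
      have h9 : C * (x⁻¹) ^ (m * E) ≤ 0 :=
        mul_nonpos_of_nonpos_of_nonneg (by linarith) (by positivity)
      have : (0 : ℝ) < 2 ^ m := by positivity
      linarith
    have h10 : (x⁻¹) ^ (m * E) ≤ (4 / 3 : ℝ) ^ m := by
      rw [mul_comm, pow_mul]
      exact pow_le_pow_left₀ (by positivity) hinv m
    have h11 : (2 : ℝ) ^ m ≤ C * (4 / 3 : ℝ) ^ m :=
      h8.trans (h7.trans (mul_le_mul_of_nonneg_left h10 hC0))
    have h12 : (2 : ℝ) ^ m = (3 / 2 : ℝ) ^ m * (4 / 3 : ℝ) ^ m := by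
      rw [← mul_pow]
      norm_num
    rw [h12] at h11
    exact le_of_mul_le_mul_right h11 (by positivity)
  obtain ⟨m, hm⟩ := pow_unbounded_of_one_lt C (show (1 : ℝ) < 3 / 2 by norm_num)
  exact absurd (hb m) (not_le.2 hm)

theorem t_ORE : S_ORE := by
  intro K _ U _ _ _ V hfin hmono h1 hmul hg D a ha s hs hs0
  have : Nontrivial U := ⟨⟨s, 0, hs0⟩⟩
  have ha' : a ∈ V (D + 1) := hmono (Nat.le_succ D) ha
  have hs' : s ∈ V (D + 1) := hmono (Nat.le_succ D) hs
  constructor
  · obtain ⟨p, hp0, hp⟩ := ORE_core K U V hfin h1 hg (D + 1) (by omega)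
      ((LinearMap.mulRight K a).comp (LinearMap.fst K U U) -
        (LinearMap.mulRight K s).comp (LinearMap.snd K U U))
      (by
        intro n u hu v hv
        have e1 := hmul n (D + 1) u hu a ha'
        have e2 := hmul n (D + 1) v hv s hs'
        exact (V (n + (D + 1))).sub_mem e1 e2)
    have hp' : p.1 * a - p.2 * s = 0 := hp
    refine ⟨p.1, p.2, ?_, sub_eq_zero.1 hp'⟩
    intro h0
    rw [h0, zero_mul, zero_sub, neg_eq_zero] at hp'
    rcases mul_eq_zero.1 hp' with h2 | h2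
    · exact hp0 (Prod.ext h0 h2)
    · exact hs0 h2
  · obtain ⟨p, hp0, hp⟩ := ORE_core K U V hfin h1 hg (D + 1) (by omega)
      ((LinearMap.mulLeft K a).comp (LinearMap.fst K U U) -
        (LinearMap.mulLeft K s).comp (LinearMap.snd K U U))
      (by
        intro n u hu v hv
        have e1 := hmul (D + 1) n a ha' u hu
        have e2 := hmul (D + 1) n s hs' v hv
        rw [add_comm (D + 1) n] at e1 e2
        exact (V (n + (D + 1))).sub_mem e1 e2)
    have hp' : a * p.1 - s * p.2 = 0 := hp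
    refine ⟨p.1, p.2, ?_, sub_eq_zero.1 hp'⟩
    intro h0
    rw [h0, mul_zero, zero_sub, neg_eq_zero] at hp'
    rcases mul_eq_zero.1 hp' with h2 | h2
    · exact hs0 h2
    · exact hp0 (Prod.ext h0 h2)

end H67OL
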