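import Pool.Agent.H67.OL.Defs

/-!
Task SORT: sorting products modulo shorter ones.
-/

set_option autoImplicit false

namespace H67OL

section sort

variable {K : Type} [Field K] {A : Type} [Ring A] [Algebra K A] {B : Type} [LinearOrder B]

/-- the span of the products of lists of length less than `k` and weight at most `n` -/
private def SORT_P (K : Type) [Field K] {A : Type} [Ring A] [Algebra K A] {B : Type}
    (g : B → A) (f : B → ℕ) (k n : ℕ) : Submodule K A :=
  Submodule.span K {z | ∃ m : List B, m.length < k ∧ wl f m ≤ n ∧ z = (m.map g).prod}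

private theorem SORT_mul_left (g : B → A) (f : B → ℕ) (a : B) (k n : ℕ) (z : A)
    (hz : z ∈ SORT_P K g f k n) : g a * z ∈ SORT_P K g f (k + 1) (f a + n) := by
  unfold SORT_P at hz
  induction hz using Submodule.span_induction with
  | mem z h =>
    obtain ⟨m, h1, h2, rfl⟩ := h
    apply Submodule.subset_span
    refine ⟨a :: m, ?_, ?_, ?_⟩
    · simp only [List.length_cons]; omega
    · simp only [wl, List.map_cons, List.sum_cons] at h2 ⊢; omega
    · simp
  | zero => rw [mul_zero]; exact Submodule.zero_mem _
  | add x y _ _ hx hy => rw [mul_add]; exact Submodule.add_mem _ hx hy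
  | smul c x _ hx => rw [mul_smul_comm]; exact Submodule.smul_mem _ _ hx

private theorem SORT_mul_right (g : B → A) (f : B → ℕ) (l : List B) (n : ℕ) (z : A)
    (hz : z ∈ Submodule.span K {z | ∃ δ, f δ ≤ n ∧ z = g δ}) :
    z * (l.map g).prod ∈ SORT_P K g f (l.length + 2) (n + wl f l) := by
  induction hz using Submodule.span_induction with
  | mem z h =>
    obtain ⟨δ, h1, rfl⟩ := h
    apply Submodule.subset_span
    refine ⟨δ :: l, ?_, ?_, ?_⟩
    · simp only [List.length_cons]; omega
    · simp only [wl, List.map_cons, List.sum_cons]; omega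
    · simp
  | zero => rw [zero_mul]; exact Submodule.zero_mem _
  | add x y _ _ hx hy => rw [add_mul]; exact Submodule.add_mem _ hx hy
  | smul c x _ hx => rw [smul_mul_assoc]; exact Submodule.smul_mem _ _ hx

private theorem SORT_wl_perm (f : B → ℕ) {l l' : List B} (h : l.Perm l') : wl f l = wl f l' := by
  unfold wl
  exact (h.map f).sum_eq

private theorem SORT_perm (g : B → A) (f : B → ℕ)
    (hg : ∀ β γ, g β * g γ - g γ * g β ∈
      Submodule.span K {z | ∃ δ, f δ ≤ f β + f γ ∧ z = g δ}) {l l' : List B} (h : l.Perm l') :
    (l.map g).prod - (l'.map g).prod ∈ SORT_P K g f l.length (wl f l) := by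
  induction h with
  | nil => simp
  | cons a _ ih =>
    rename_i l₁ l₂ _
    have h1 := SORT_mul_left g f a _ _ _ ih
    rw [mul_sub] at h1
    simpa [wl] using h1
  | swap a b l =>
    have h1 := SORT_mul_right g f l _ _ (hg b a)
    have e1 : (((b :: a :: l).map g).prod - ((a :: b :: l).map g).prod) =
        (g b * g a - g a * g b) * (l.map g).prod := by
      simp only [List.map_cons, List.prod_cons]
      rw [sub_mul, mul_assoc, mul_assoc]
    rw [e1]
    have e2 : wl f (b :: a :: l) = f b + f a + wl f l := by
      simp only [wl, List.map_cons, List.sum_cons]; omega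
    rw [e2]
    exact h1
  | trans h1 h2 ih1 ih2 =>
    rename_i l₁ l₂ l₃
    rw [← h1.length_eq, ← SORT_wl_perm f h1] at ih2
    have := Submodule.add_mem _ ih1 ih2
    rwa [sub_add_sub_cancel] at this

end sort

theorem t_SORT : S_SORT := by
  intro K _ A _ _ B _ g f hg
  have key : ∀ (n : ℕ) (l : List B), l.length = n → (l.map g).prod ∈
      Submodule.span K {z | ∃ m : List B, m.Pairwise (· ≤ ·) ∧ wl f m ≤ wl f l ∧
        z = (m.map g).prod} := by
    intro n
    induction n using Nat.strong_induction_on with
    | _ n ih =>
      intro l hl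
      have hp : l.Perm (l.insertionSort (· ≤ ·)) := (List.perm_insertionSort (· ≤ ·) l).symm
      have h1 := SORT_perm (K := K) g f hg hp
      have h2 : SORT_P K g f l.length (wl f l) ≤
          Submodule.span K {z | ∃ m : List B, m.Pairwise (· ≤ ·) ∧ wl f m ≤ wl f l ∧
            z = (m.map g).prod} := by
        apply Submodule.span_le.mpr
        rintro z ⟨m, h3, h4, rfl⟩
        have h5 := ih m.length (by omega) m rfl
        refine Submodule.span_mono ?_ h5
        rintro z ⟨m', h6, h7, h8⟩
        exact ⟨m', h6, h7.trans h4, h8⟩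
      have h3 : ((l.insertionSort (· ≤ ·)).map g).prod ∈
          Submodule.span K {z | ∃ m : List B, m.Pairwise (· ≤ ·) ∧ wl f m ≤ wl f l ∧
            z = (m.map g).prod} := by
        apply Submodule.subset_span
        refine ⟨l.insertionSort (· ≤ ·), ?_, (SORT_wl_perm f hp).ge, rfl⟩
        exact List.pairwise_insertionSort (· ≤ ·) l
      have h4 := Submodule.add_mem _ (h2 h1) h3
      rwa [sub_add_cancel] at h4
  intro l
  exact key l.length l rfl

end H67OL
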