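import Pool.Agent.H67.OL.Defs

set_option autoImplicit false

namespace H67OL

section order

variable {α : Type} [LinearOrder α]

private theorem SPAN_append_lt {u u' : List α} (h : u < u') (hl : u.length = u'.length)
    (v v' : List α) : u ++ v < u' ++ v' := by
  have h' : List.Lex (· < ·) u u' := h
  show List.Lex (· < ·) (u ++ v) (u' ++ v')
  induction h' with
  | nil => simp at hl
  | cons h1 ih =>
    simp only [List.length_cons, Nat.add_right_cancel_iff] at hl
    exact List.Lex.cons (ih h1 hl)
  | rel h1 => exact List.Lex.rel h1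

private theorem SPAN_lt_append (u : List α) {v v' : List α} (h : v < v') : u ++ v < u ++ v' := by
  induction u with
  | nil => exact h
  | cons a u ih => exact List.Lex.cons ih

private theorem SPAN_append_le {u u' v v' : List α} (h : u ≤ u') (hl : u.length = u'.length)
    (h2 : v ≤ v') : u ++ v ≤ u' ++ v' := by
  rcases h.lt_or_eq with h3 | h3
  · exact (SPAN_append_lt h3 hl v v').le
  · subst h3
    rcases h2.lt_or_eq with h4 | h4
    · exact (SPAN_lt_append u h4).le
    · rw [h4]

private theorem SPAN_le_append (v u : List α) : v ≤ v ++ u := by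
  induction v with
  | nil =>
    rcases u with _ | ⟨a, u⟩
    · exact le_refl _
    · exact le_of_lt (show List.Lex (· < ·) _ _ from List.Lex.nil)
  | cons a v ih =>
    rcases ih.lt_or_eq with h | h
    · exact le_of_lt (show List.Lex (· < ·) _ _ from List.Lex.cons h)
    · rw [List.cons_append, ← h]

private theorem SPAN_swap (h2 : S_F2) {u v : List α} (hu : Lyn u) (hv : Lyn v) (huv : u < v) :
    u ++ v < v ++ u :=
  lt_of_lt_of_le ((h2 α u v hu hv huv).2 u v hu.1 hv.1 rfl) (SPAN_le_append v u)

private theorem SPAN_move (h2 : S_F2) {a : List α} (ha : Lyn a) (G : List (List α))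
    (hG : ∀ l ∈ G, Lyn l) (hG2 : ∀ l ∈ G, a < l) :
    a ++ G.flatten ≤ G.flatten ++ a ∧ (G ≠ [] → a ++ G.flatten < G.flatten ++ a) := by
  induction G with
  | nil => simp
  | cons b G ih =>
    obtain ⟨ih1, -⟩ := ih (fun l hl => hG l (List.mem_cons_of_mem _ hl))
      (fun l hl => hG2 l (List.mem_cons_of_mem _ hl))
    have hab := SPAN_swap h2 ha (hG b List.mem_cons_self) (hG2 b List.mem_cons_self)
    have key : a ++ (b :: G).flatten < (b :: G).flatten ++ a := by
      rw [List.flatten_cons, ← List.append_assoc, List.append_assoc b]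
      refine lt_of_lt_of_le (SPAN_append_lt hab (by simp [Nat.add_comm]) G.flatten G.flatten) ?_
      rw [List.append_assoc]
      exact SPAN_append_le (le_refl b) rfl ih1
    exact ⟨key.le, fun _ => key⟩

private theorem SPAN_perm_lt (h2 : S_F2) (F : List (List α)) :
    (∀ l ∈ F, Lyn l) → F.Pairwise (· < ·) → ∀ G : List (List α), G.Perm F → G ≠ F →
      F.flatten < G.flatten := by
  induction F with
  | nil =>
    intro _ _ G hG hne
    exact absurd (List.perm_nil.mp hG) hne
  | cons a F ih =>
    intro hL hP G hG hne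
    have haG : a ∈ G := hG.symm.subset List.mem_cons_self
    obtain ⟨G1, G2, rfl⟩ := List.append_of_mem haG
    have hp : (G1 ++ G2).Perm F := by
      have h3 : (a :: (G1 ++ G2)).Perm (a :: F) := (List.perm_middle.symm).trans hG
      exact (List.perm_cons a).mp h3
    have hLF : ∀ l ∈ F, Lyn l := fun l hl => hL l (List.mem_cons_of_mem _ hl)
    rw [List.pairwise_cons] at hP
    have hG1 : ∀ l ∈ G1, l ∈ F := fun l hl => hp.subset (List.mem_append_left _ hl)
    obtain ⟨m1, m2⟩ := SPAN_move h2 (hL a List.mem_cons_self) G1 (fun l hl => hLF l (hG1 l hl))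
      (fun l hl => hP.1 l (hG1 l hl))
    have e1 : (G1 ++ a :: G2).flatten = (G1.flatten ++ a) ++ G2.flatten := by
      simp [List.flatten_append, List.flatten_cons]
    have e2 : a ++ (G1 ++ G2).flatten = (a ++ G1.flatten) ++ G2.flatten := by
      simp [List.flatten_append]
    by_cases hc : G1 ++ G2 = F
    · have hG1ne : G1 ≠ [] := by
        rintro rfl
        apply hne
        simp at hc
        simp [hc]
      rw [List.flatten_cons, ← hc, e1, e2]
      exact SPAN_append_lt (m2 hG1ne) (by simp [Nat.add_comm]) _ _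
    · have h5 := ih hLF hP.2 _ hp hc
      rw [List.flatten_cons, e1]
      refine lt_of_lt_of_le (SPAN_lt_append a h5) ?_
      rw [e2]
      exact SPAN_append_le m1 (by simp [Nat.add_comm]) (le_refl _)

end order

section alg

variable {α : Type} [LinearOrder α] {K A : Type} [Field K] [Ring A] [Algebra K A]

private theorem SPAN_mul {S T U : Set A} (h : ∀ s ∈ S, ∀ t ∈ T, s * t ∈ U) {a b : A}
    (ha : a ∈ Submodule.span K S) (hb : b ∈ Submodule.span K T) :
    a * b ∈ Submodule.span K U := by
  have h1 := Submodule.mul_mem_mul ha hb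
  rw [Submodule.span_mul_span] at h1
  refine Submodule.span_mono ?_ h1
  rintro _ ⟨s, hs, t, ht, rfl⟩
  exact h s hs t ht

/-- words of the same length that are at least `w` -/
private def SPAN_W (g : α → A) (w : List α) : Set A :=
  {z | ∃ u : List α, u.length = w.length ∧ w ≤ u ∧ z = (u.map g).prod}

/-- words of the same length that are larger than `w` -/
private def SPAN_W' (g : α → A) (w : List α) : Set A :=
  {z | ∃ u : List α, u.length = w.length ∧ w < u ∧ z = (u.map g).prod}

private theorem SPAN_W'_sub (g : α → A) (w : List α) : SPAN_W' g w ⊆ SPAN_W g w := by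
  rintro z ⟨u, h1, h2, h3⟩
  exact ⟨u, h1, h2.le, h3⟩

private theorem SPAN_W_sub (g : α → A) {w w' : List α} (hl : w'.length = w.length) (h : w < w') :
    SPAN_W g w' ⊆ SPAN_W' g w := by
  rintro z ⟨u, h1, h2, h3⟩
  exact ⟨u, h1.trans hl, lt_of_lt_of_le h h2, h3⟩

private theorem SPAN_ww (g : α → A) {u v : List α} {a b : A}
    (ha : a ∈ Submodule.span K (SPAN_W g u)) (hb : b ∈ Submodule.span K (SPAN_W g v)) :
    a * b ∈ Submodule.span K (SPAN_W g (u ++ v)) := by
  refine SPAN_mul ?_ ha hb
  rintro _ ⟨p, p1, p2, rfl⟩ _ ⟨q, q1, q2, rfl⟩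
  exact ⟨p ++ q, by simp [p1, q1], SPAN_append_le p2 p1.symm q2, by simp⟩

private theorem SPAN_w'w (g : α → A) {u v : List α} {a b : A}
    (ha : a ∈ Submodule.span K (SPAN_W' g u)) (hb : b ∈ Submodule.span K (SPAN_W g v)) :
    a * b ∈ Submodule.span K (SPAN_W' g (u ++ v)) := by
  refine SPAN_mul ?_ ha hb
  rintro _ ⟨p, p1, p2, rfl⟩ _ ⟨q, q1, q2, rfl⟩
  exact ⟨p ++ q, by simp [p1, q1], SPAN_append_lt p2 p1.symm _ _, by simp⟩

private theorem SPAN_ww' (g : α → A) {u v : List α} {a b : A}
    (ha : a ∈ Submodule.span K (SPAN_W g u)) (hb : b ∈ Submodule.span K (SPAN_W' g v)) :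
    a * b ∈ Submodule.span K (SPAN_W' g (u ++ v)) := by
  refine SPAN_mul ?_ ha hb
  rintro _ ⟨p, p1, p2, rfl⟩ _ ⟨q, q1, q2, rfl⟩
  refine ⟨p ++ q, by simp [p1, q1], ?_, by simp⟩
  rcases p2.lt_or_eq with h | h
  · exact SPAN_append_lt h p1.symm _ _
  · rw [h]; exact SPAN_lt_append p q2

private theorem SPAN_self (g : α → A) (w : List α) :
    (w.map g).prod ∈ Submodule.span K (SPAN_W g w) :=
  Submodule.subset_span ⟨w, rfl, le_refl _, rfl⟩

private theorem SPAN_lyn (h2 : S_F2) (h4 : S_F4) {L : Type} [LieRing L] [LieAlgebra K L]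
    (ρ : L →ₗ[K] A) (hρ : ∀ x y : L, ρ ⁅x, y⁆ = ρ x * ρ y - ρ y * ρ x) (x : α → L) (n : ℕ) :
    ∀ w : List α, w.length ≤ n → Lyn w → ∃ y : L,
      (w.map (fun i => ρ (x i))).prod - ρ y ∈ Submodule.span K (SPAN_W' (fun i => ρ (x i)) w) := by
  induction n with
  | zero =>
    intro w hw hL
    exact absurd (List.length_eq_zero_iff.mp (Nat.le_zero.mp hw)) hL.1
  | succ n ih =>
    intro w hw hL
    by_cases h1 : 2 ≤ w.length
    · obtain ⟨u, v, hu, hv, huv, rfl⟩ := h4 α w hL h1
      have lu : 0 < u.length := List.length_pos_iff.mpr hu.1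
      have lv : 0 < v.length := List.length_pos_iff.mpr hv.1
      rw [List.length_append] at hw
      obtain ⟨yu, hyu⟩ := ih u (by omega) hu
      obtain ⟨yv, hyv⟩ := ih v (by omega) hv
      refine ⟨⁅yu, yv⁆, ?_⟩
      have ru : ρ yu ∈ Submodule.span K (SPAN_W (fun i => ρ (x i)) u) := by
        have h5 := Submodule.sub_mem _ (SPAN_self (K := K) (fun i => ρ (x i)) u)
          (Submodule.span_mono (SPAN_W'_sub _ _) hyu)
        rwa [sub_sub_cancel] at h5
      have rv : ρ yv ∈ Submodule.span K (SPAN_W (fun i => ρ (x i)) v) := by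
        have h5 := Submodule.sub_mem _ (SPAN_self (K := K) (fun i => ρ (x i)) v)
          (Submodule.span_mono (SPAN_W'_sub _ _) hyv)
        rwa [sub_sub_cancel] at h5
      have e1 : ((u ++ v).map (fun i => ρ (x i))).prod - ρ ⁅yu, yv⁆ =
          ((u.map (fun i => ρ (x i))).prod - ρ yu) * (v.map (fun i => ρ (x i))).prod +
          ρ yu * ((v.map (fun i => ρ (x i))).prod - ρ yv) + ρ yv * ρ yu := by
        rw [hρ, List.map_append, List.prod_append]
        noncomm_ring
      rw [e1]
      refine Submodule.add_mem _ (Submodule.add_mem _ ?_ ?_) ?_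
      · exact SPAN_w'w _ hyu (SPAN_self _ v)
      · exact SPAN_ww' _ ru hyv
      · refine Submodule.span_mono (SPAN_W_sub _ ?_ (SPAN_swap h2 hu hv huv)) (SPAN_ww _ rv ru)
        simp [Nat.add_comm]
    · have h3 : w.length = 1 := by
        have := List.length_pos_iff.mpr hL.1
        omega
      obtain ⟨i, rfl⟩ := List.length_eq_one_iff.mp h3
      exact ⟨x i, by simp⟩

private theorem SPAN_list {L : Type} [LieRing L] [LieAlgebra K L]
    (ρ : L →ₗ[K] A) (x : α → L) (Y : List α → L)
    (hY : ∀ w, Lyn w → (w.map (fun i => ρ (x i))).prod - ρ (Y w) ∈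
      Submodule.span K (SPAN_W' (fun i => ρ (x i)) w)) (F : List (List α))
    (hF : ∀ l ∈ F, Lyn l) :
    (F.flatten.map (fun i => ρ (x i))).prod - (F.map (fun l => ρ (Y l))).prod ∈
      Submodule.span K (SPAN_W' (fun i => ρ (x i)) F.flatten) := by
  induction F with
  | nil => simp
  | cons l F ih =>
    have ih := ih (fun l hl => hF l (List.mem_cons_of_mem _ hl))
    have hl := hY l (hF l List.mem_cons_self)
    have rl : ρ (Y l) ∈ Submodule.span K (SPAN_W (fun i => ρ (x i)) l) := by
      have h5 := Submodule.sub_mem _ (SPAN_self (K := K) (fun i => ρ (x i)) l)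
        (Submodule.span_mono (SPAN_W'_sub _ _) hl)
      rwa [sub_sub_cancel] at h5
    have e1 : (((l :: F).flatten).map (fun i => ρ (x i))).prod -
        ((l :: F).map (fun l => ρ (Y l))).prod =
        ((l.map (fun i => ρ (x i))).prod - ρ (Y l)) * (F.flatten.map (fun i => ρ (x i))).prod +
        ρ (Y l) * ((F.flatten.map (fun i => ρ (x i))).prod - (F.map (fun l => ρ (Y l))).prod) := by
      rw [List.flatten_cons, List.map_append, List.prod_append, List.map_cons, List.prod_cons]
      noncomm_ring
    rw [e1, List.flatten_cons]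
    exact Submodule.add_mem _ (SPAN_w'w _ hl (SPAN_self _ _)) (SPAN_ww' _ rl ih)

private theorem SPAN_red (h2 : S_F2) (h4 : S_F4) {L : Type} [LieRing L] [LieAlgebra K L]
    (ρ : L →ₗ[K] A) (hρ : ∀ x y : L, ρ ⁅x, y⁆ = ρ x * ρ y - ρ y * ρ x) (d : ℕ)
    (c : Equiv.Perm (Fin d) → K) (hc : c 1 = 1)
    (hid : ∀ y : Fin d → L, ∑ σ, c σ • (List.ofFn (fun i => ρ (y (σ i)))).prod = 0)
    (x : α → L) (w : List α) (hw : ¬ NoChain d w) :
    (w.map (fun i => ρ (x i))).prod ∈ Submodule.span K (SPAN_W' (fun i => ρ (x i)) w) := by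
  have hch : ∀ w : List α, ∃ y : L, Lyn w → (w.map (fun i => ρ (x i))).prod - ρ y ∈
      Submodule.span K (SPAN_W' (fun i => ρ (x i)) w) := by
    intro w
    by_cases hL : Lyn w
    · obtain ⟨y, hy⟩ := SPAN_lyn h2 h4 ρ hρ x w.length w le_rfl hL
      exact ⟨y, fun _ => hy⟩
    · exact ⟨0, fun h => absurd h hL⟩
  choose Y hY using hch
  unfold NoChain at hw
  push Not at hw
  obtain ⟨p, q, F, hFd, hFL, hFP, rfl⟩ := hw
  subst hFd
  have hmain : (F.flatten.map (fun i => ρ (x i))).prod ∈
      Submodule.span K (SPAN_W' (fun i => ρ (x i)) F.flatten) := by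
    have h1 := hid (fun i => Y (F.get i))
    have h3 : (F.map (fun l => ρ (Y l))).prod ∈
        Submodule.span K (SPAN_W' (fun i => ρ (x i)) F.flatten) := by
      rw [← Finset.add_sum_erase _ _ (Finset.mem_univ (1 : Equiv.Perm (Fin F.length))), hc,
        one_smul] at h1
      have e1 : (List.ofFn (fun i => ρ (Y (F.get ((1 : Equiv.Perm (Fin F.length)) i))))) =
          F.map (fun l => ρ (Y l)) := by
        apply List.ext_getElem
        · simp
        · intro n h5 h6
          simp
      rw [e1] at h1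
      rw [eq_neg_of_add_eq_zero_left h1]
      refine Submodule.neg_mem _ (Submodule.sum_mem _ fun σ hσ => Submodule.smul_mem _ _ ?_)
      have hσ1 : σ ≠ 1 := (Finset.mem_erase.mp hσ).1
      set G : List (List α) := List.ofFn (fun i => F.get (σ i)) with hG
      have e2 : (List.ofFn (fun i => ρ (Y (F.get (σ i))))) = G.map (fun l => ρ (Y l)) := by
        rw [hG, List.map_ofFn]
        rfl
      rw [e2]
      have hperm : G.Perm F := by
        have h7 : (List.ofFn (F.get ∘ σ)).Perm (List.ofFn F.get) := Equiv.Perm.ofFn_comp_perm σ F.get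
        rw [List.ofFn_get] at h7
        exact h7
      have hne : G ≠ F := by
        intro h8
        apply hσ1
        ext i
        have hnd : F.Nodup := hFP.imp (fun h => ne_of_lt h)
        have h9 : F.get (σ i) = F.get i := by
          have h10 : List.ofFn (fun i => F.get (σ i)) = List.ofFn F.get := by
            rw [List.ofFn_get]; exact h8
          exact congrFun (List.ofFn_injective h10) i
        have h11 := (List.nodup_iff_injective_get.mp hnd) h9
        rw [h11]
        rfl
      have hGL : ∀ l ∈ G, Lyn l := fun l hl => hFL l (hperm.subset hl)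
      have hlt := SPAN_perm_lt h2 F hFL hFP G hperm hne
      have hlen : G.flatten.length = F.flatten.length := hperm.flatten.length_eq
      have h12 := SPAN_list ρ x Y hY G hGL
      have h13 : (G.map (fun l => ρ (Y l))).prod ∈
          Submodule.span K (SPAN_W (fun i => ρ (x i)) G.flatten) := by
        have h5 := Submodule.sub_mem _ (SPAN_self (K := K) (fun i => ρ (x i)) G.flatten)
          (Submodule.span_mono (SPAN_W'_sub _ _) h12)
        rwa [sub_sub_cancel] at h5
      exact Submodule.span_mono (SPAN_W_sub _ hlen hlt) h13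
    have h4 := Submodule.add_mem _ (SPAN_list ρ x Y hY F hFL) h3
    rwa [sub_add_cancel] at h4
  have h5 := SPAN_w'w _ (SPAN_ww' _ (SPAN_self (K := K) (fun i => ρ (x i)) p) hmain)
    (SPAN_self (K := K) (fun i => ρ (x i)) q)
  rw [List.map_append, List.prod_append, List.map_append, List.prod_append]
  exact h5

end alg

theorem t_SPAN (h2 : S_F2) (h4 : S_F4) : S_SPAN := by
  intro K _ L _ _ A _ _ ρ d c hρ hc hid k x w
  obtain ⟨n, hn⟩ : ∃ n, w.length = n := ⟨_, rfl⟩
  have key : ∀ w : {w : List (Fin k) // w.length = n}, (w.1.map (fun i => ρ (x i))).prod ∈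
      Submodule.span K {z | ∃ u : List (Fin k), NoChain d u ∧ u.length = n ∧
        z = (u.map (fun i => ρ (x i))).prod} := by
    haveI : Finite {w : List (Fin k) // w.length = n} :=
      inferInstanceAs (Finite (List.Vector (Fin k) n))
    intro w
    induction w using (wellFounded_gt (α := {w : List (Fin k) // w.length = n})).induction with
    | _ w ih =>
      by_cases hw : NoChain d w.1
      · exact Submodule.subset_span ⟨w.1, hw, w.2, rfl⟩
      · have h1 := SPAN_red h2 h4 ρ hρ d c hc hid x w.1 hw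
        refine (Submodule.span_le.mpr ?_) h1
        rintro z ⟨u, hu1, hu2, rfl⟩
        exact ih ⟨u, hu1.trans w.2⟩ hu2
  rw [hn]
  exact key ⟨w, hn⟩

end H67OL
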