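import Pool.Agent.H67.OL.Defs

/-!
WEAK: a Lie identity gives a weak identity of `ad L` (helper152)
-/

set_option autoImplicit false

namespace H67OL

attribute [local instance 100] LieRing.ofAssociativeRing

set_option backward.isDefEq.respectTransparency false in
theorem t_WEAK (h1 : S_DOM) (h2 : S_LIN) : S_WEAK := by
  rintro K _ L _ _ ⟨f, hf, hid⟩
  set e := FreeLieAlgebra.universalEnvelopingEquivFreeAlgebra K ℕ with he
  set F : FreeAlgebra K ℕ := e (UniversalEnvelopingAlgebra.ι K f) with hF
  have hF0 : F ≠ 0 := by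
    intro h
    have h3 : UniversalEnvelopingAlgebra.ι K f = 0 := by
      apply e.injective
      rw [map_zero]
      exact h
    apply hf
    apply (h1 K (FreeLieAlgebra K ℕ)).2.2
    show UniversalEnvelopingAlgebra.ι K f = UniversalEnvelopingAlgebra.ι K 0
    rw [h3, map_zero]
  obtain ⟨d, c, hc, hy⟩ := h2 K (Module.End K L)
    (LinearMap.range (LieAlgebra.ad K L : L →ₗ[K] Module.End K L)) F hF0 (by
    intro φ hφ
    choose ψ hψ using hφ
    have key : (((FreeAlgebra.lift K φ).comp
        (e : UniversalEnvelopingAlgebra K (FreeLieAlgebra K ℕ) →ₐ[K] FreeAlgebra K ℕ) :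
        UniversalEnvelopingAlgebra K (FreeLieAlgebra K ℕ) →ₐ[K] Module.End K L) :
        UniversalEnvelopingAlgebra K (FreeLieAlgebra K ℕ) →ₗ⁅K⁆ Module.End K L).comp
        (UniversalEnvelopingAlgebra.ι K) =
        (LieAlgebra.ad K L).comp (FreeLieAlgebra.lift K ψ) := by
      apply FreeLieAlgebra.hom_ext
      intro i
      have h4 := hψ i
      simp [he] at h4 ⊢
      exact h4.symm
    have h5 := DFunLike.congr_fun key f
    rw [LieHom.comp_apply, LieHom.comp_apply, hid ψ, map_zero] at h5
    exact h5)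
  exact ⟨d, c, hc, fun y => hy (fun i => LieAlgebra.ad K L (y i)) (fun i => ⟨y i, rfl⟩)⟩

end H67OL
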