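import Pool.Agent.H67.OL.Count
import Pool.Agent.H67.OL.PBW2
import Pool.Agent.H67.OL.SORT
import Pool.Agent.H67.OL.DOM
import Pool.Agent.H67.OL.LIN
import Pool.Agent.H67.OL.WEAK
import Pool.Agent.H67.OL.MULT
import Pool.Agent.H67.OL.ORE
import Pool.Agent.H67.OL.SPAN
import Pool.Agent.H67.OL.GROW

set_option autoImplicit false

namespace H67OL

theorem dom : S_DOM := t_DOM t_PBW2 t_SORT

theorem grow : S_GROW := t_GROW (t_SPAN t_F2 t_F4) t_SORT t_MULT (t_COUNT t_MULT)

theorem weak : S_WEAK := t_WEAK dom t_LIN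

section

variable (K : Type) [Field K] (L : Type) [LieRing L] [LieAlgebra K L]

/-- products of at most `n` elements of a finite subset of `L` -/
noncomputable def FT (T : Finset L) (n : ℕ) : Submodule K (UniversalEnvelopingAlgebra K L) :=
  Submodule.span K {z | ∃ l : List L, (∀ y ∈ l, y ∈ T) ∧ l.length ≤ n ∧
    z = (l.map (fun y => UniversalEnvelopingAlgebra.ι K y)).prod}

variable {K L}

theorem FT_mono {T T' : Finset L} {n n' : ℕ} (h : T ⊆ T') (hn : n ≤ n') : FT K L T n ≤ FT K L T' n' := by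
  apply Submodule.span_mono
  rintro z ⟨l, h1, h2, h3⟩
  exact ⟨l, fun y hy => h (h1 y hy), h2.trans hn, h3⟩

theorem exists_FT (u : UniversalEnvelopingAlgebra K L) : ∃ (T : Finset L) (n : ℕ), u ∈ FT K L T n := by
  classical
  let b := Module.Basis.ofVectorSpace K L
  have h1 : u ∈ Algebra.adjoin K (Set.range fun i => UniversalEnvelopingAlgebra.ι K (b i)) := by
    rw [DOMaux.adjoin_top b]; exact Algebra.mem_top
  rw [← Subalgebra.mem_toSubmodule, Algebra.adjoin_eq_span] at h1
  induction h1 using Submodule.span_induction with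
  | mem z hz =>
    obtain ⟨l, rfl⟩ := DOMaux.mem_closure_range _ hz
    refine ⟨(l.map b).toFinset, l.length, Submodule.subset_span ⟨l.map b, ?_, by simp, ?_⟩⟩
    · intro y hy
      exact List.mem_toFinset.2 hy
    · rw [List.map_map]; rfl
  | zero => exact ⟨∅, 0, Submodule.zero_mem _⟩
  | add x y _ _ hx hy =>
    obtain ⟨T, n, hx⟩ := hx
    obtain ⟨T', n', hy⟩ := hy
    exact ⟨T ∪ T', max n n', Submodule.add_mem _
      (FT_mono Finset.subset_union_left (le_max_left _ _) hx)
      (FT_mono Finset.subset_union_right (le_max_right _ _) hy)⟩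
  | smul c x _ hx =>
    obtain ⟨T, n, hx⟩ := hx
    exact ⟨T, n, Submodule.smul_mem _ _ hx⟩

theorem FT_le_filt (T : Finset L) (n : ℕ) : FT K L T n ≤
    filt K L T.card (fun i => (T.equivFin.symm i : L)) n := by
  classical
  apply Submodule.span_mono
  rintro z ⟨l, h1, h2, rfl⟩
  have key : ∀ l : List L, (∀ y ∈ l, y ∈ T) → ∃ m : List (Fin T.card), m.length = l.length ∧
      l = m.map (fun i => (T.equivFin.symm i : L)) := by
    intro l
    induction l with
    | nil => intro _; exact ⟨[], rfl, rfl⟩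
    | cons y l ih =>
      intro h
      obtain ⟨m, hm1, hm2⟩ := ih (fun z hz => h z (by simp [hz]))
      refine ⟨T.equivFin ⟨y, h y (by simp)⟩ :: m, by simp [hm1], ?_⟩
      simp [← hm2]
  obtain ⟨m, hm1, hm2⟩ := key l h1
  refine ⟨m, by omega, ?_⟩
  rw [hm2, List.map_map]
  rfl

theorem filt_finite (k : ℕ) (x : Fin k → L) (n : ℕ) : Module.Finite K (filt K L k x n) := by
  have hfin : Set.Finite {l : List (Fin k) | l.length ≤ n} := by
    have : {l : List (Fin k) | l.length ≤ n} = ⋃ i ∈ Set.Iic n, {l : List (Fin k) | l.length = i} := by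
      ext l; simp
    rw [this]
    exact (Set.finite_Iic n).biUnion (fun i _ => List.finite_length_eq (Fin k) i)
  have h2 : Set.Finite {z : UniversalEnvelopingAlgebra K L | ∃ l : List (Fin k), l.length ≤ n ∧
      z = (l.map (fun i => UniversalEnvelopingAlgebra.ι K (x i))).prod} := by
    refine (hfin.image (fun l => (l.map (fun i => UniversalEnvelopingAlgebra.ι K (x i))).prod)).subset ?_
    rintro z ⟨l, h1, rfl⟩
    exact ⟨l, h1, rfl⟩
  exact Module.Finite.span_of_finite K h2

theorem filt_mul (k : ℕ) (x : Fin k → L) (m n : ℕ) (a b : UniversalEnvelopingAlgebra K L)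
    (ha : a ∈ filt K L k x m) (hb : b ∈ filt K L k x n) : a * b ∈ filt K L k x (m + n) := by
  have h1 : filt K L k x m * filt K L k x n ≤ filt K L k x (m + n) := by
    unfold filt
    rw [Submodule.span_mul_span]
    apply Submodule.span_mono
    rintro z ⟨u, ⟨l, hl, rfl⟩, v, ⟨l', hl', rfl⟩, rfl⟩
    exact ⟨l ++ l', by simp; omega, by simp⟩
  exact h1 (Submodule.mul_mem_mul ha hb)

/-- The enveloping algebra of a PI Lie algebra satisfies the Ore condition. -/
theorem final : S_FINAL := by
  intro K _ L _ _ hf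
  obtain ⟨d, c, hc, hid⟩ := weak K L hf
  have hg := grow K L d c hc hid
  have hNZ : NoZeroDivisors (UniversalEnvelopingAlgebra K L) := (dom K L).1
  have hNT : Nontrivial (UniversalEnvelopingAlgebra K L) := (dom K L).2.1
  have key : ∀ a s : UniversalEnvelopingAlgebra K L, s ≠ 0 →
      (∃ t b : UniversalEnvelopingAlgebra K L, t ≠ 0 ∧ t * a = b * s) ∧
      (∃ t b : UniversalEnvelopingAlgebra K L, t ≠ 0 ∧ a * t = s * b) := by
    classical
    intro a s hs
    obtain ⟨T, n, ha⟩ := exists_FT a
    obtain ⟨T', n', hs'⟩ := exists_FT s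
    have ha2 := FT_le_filt (T ∪ T') (max n n')
      (FT_mono Finset.subset_union_left (le_max_left _ _) ha)
    have hs2 := FT_le_filt (T ∪ T') (max n n')
      (FT_mono Finset.subset_union_right (le_max_right _ _) hs')
    refine t_ORE K (UniversalEnvelopingAlgebra K L)
      (fun n => filt K L (T ∪ T').card (fun i => ((T ∪ T').equivFin.symm i : L)) n)
      (fun n => filt_finite _ _ n) ?_ ?_ ?_ ?_ (max n n') a ha2 s hs2 hs
    · intro m n hmn
      apply Submodule.span_mono
      rintro z ⟨l, h1, h2⟩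
      exact ⟨l, h1.trans hmn, h2⟩
    · exact Submodule.subset_span ⟨[], by simp, by simp⟩
    · intro m n a ha b hb
      exact filt_mul _ _ m n a b ha hb
    · intro q hq0 hq1
      exact hg _ _ q hq0 hq1
  constructor
  · intro a s hs
    obtain ⟨⟨t, b, ht, h⟩, -⟩ := key a s (nonZeroDivisors.ne_zero hs)
    exact ⟨b, t, mem_nonZeroDivisors_of_ne_zero ht, h⟩
  · intro a s hs
    obtain ⟨-, ⟨t, b, ht, h⟩⟩ := key a s (nonZeroDivisors.ne_zero hs)
    exact ⟨b, t, mem_nonZeroDivisors_of_ne_zero ht, h⟩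

end

end H67OL
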