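import Pool.Agent.H67.OL.Defs

/-!
# Task PBW: the representation of a Lie algebra on polynomials (Poincare-Birkhoff-Witt)
-/

set_option autoImplicit false

namespace H67OL

namespace PBWaux

open MvPolynomial

variable {K : Type} [Field K] {L : Type} [LieRing L] [LieAlgebra K L] {I : Type}

/-- monic monomials -/
noncomputable def mo (K : Type) [Field K] {I : Type} (M : I →₀ ℕ) : MvPolynomial I K :=
  monomial M (1 : K)

/-- polynomials of degree at most `k` -/
noncomputable def D (K : Type) [Field K] (I : Type) (k : ℕ) : Submodule K (MvPolynomial I K) :=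
  Submodule.span K {p | ∃ M : I →₀ ℕ, M.degree ≤ k ∧ p = mo K M}

theorem mo_mem {M : I →₀ ℕ} {k : ℕ} (h : M.degree ≤ k) : mo K M ∈ D K I k :=
  Submodule.subset_span ⟨M, h, rfl⟩

theorem D_mono {k l : ℕ} (h : k ≤ l) : D K I k ≤ D K I l := by
  refine Submodule.span_mono ?_
  rintro p ⟨M, hM, rfl⟩
  exact ⟨M, hM.trans h, rfl⟩

theorem D_eq {V : Type} [AddCommGroup V] [Module K V] (f g : MvPolynomial I K →ₗ[K] V) {k : ℕ}
    (h : ∀ M : I →₀ ℕ, M.degree ≤ k → f (mo K M) = g (mo K M)) : ∀ p ∈ D K I k, f p = g p := by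
  intro p hp
  refine LinearMap.eqOn_span (f := f) (g := g) ?_ hp
  rintro q ⟨M, hM, rfl⟩
  exact h M hM

theorem D_map (f : MvPolynomial I K →ₗ[K] MvPolynomial I K) {k l : ℕ}
    (h : ∀ M : I →₀ ℕ, M.degree ≤ k → f (mo K M) ∈ D K I l) : ∀ p ∈ D K I k, f p ∈ D K I l := by
  have h1 : D K I k ≤ (D K I l).comap f := by
    refine Submodule.span_le.2 ?_
    rintro q ⟨M, hM, rfl⟩
    exact h M hM
  exact fun p hp => h1 hp

theorem degree_single_add (M : I →₀ ℕ) (i : I) :
    (M + Finsupp.single i 1).degree = M.degree + 1 := by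
  rw [map_add, Finsupp.degree_single]

theorem X_mul_mo (i : I) (M : I →₀ ℕ) : X i * mo K M = mo K (M + Finsupp.single i 1) := by
  unfold mo
  rw [X, monomial_mul, one_mul, add_comm]

theorem mem_D_totalDegree (p : MvPolynomial I K) : p ∈ D K I p.totalDegree := by
  have h0 : (∑ v ∈ p.support, monomial v (coeff v p)) ∈ D K I p.totalDegree := by
    refine Submodule.sum_mem _ fun M hM => ?_
    have h1 : monomial M (coeff M p) = (coeff M p) • mo K M := by
      unfold mo; rw [smul_monomial, smul_eq_mul, mul_one]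
    rw [h1]
    refine Submodule.smul_mem _ _ (mo_mem ?_)
    exact le_totalDegree hM
  rwa [support_sum_monomial_coeff] at h0

theorem totalDegree_le_of_mem {p : MvPolynomial I K} {k : ℕ} (hp : p ∈ D K I k) :
    p.totalDegree ≤ k := by
  have h1 : D K I k ≤ restrictTotalDegree I K k := by
    refine Submodule.span_le.2 ?_
    rintro q ⟨M, hM, rfl⟩
    refine (mem_restrictTotalDegree _ _ _).2 ?_
    exact (totalDegree_monomial_le M (1 : K)).trans hM
  exact (mem_restrictTotalDegree _ _ _).1 (h1 hp)

variable (b : Module.Basis I K L)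

theorem basis_ind (P : L → Prop) (hb : ∀ i, P (b i)) (h0 : P 0)
    (hadd : ∀ x y, P x → P y → P (x + y)) (hs : ∀ (c : K) x, P x → P (c • x)) (x : L) : P x := by
  have hx : x ∈ Submodule.span K (Set.range b) := b.mem_span x
  induction hx using Submodule.span_induction with
  | mem x h => obtain ⟨i, rfl⟩ := h; exact hb i
  | zero => exact h0
  | add x y _ _ hx hy => exact hadd x y hx hy
  | smul c x _ hx => exact hs c x hx

/-- linear extension -/
noncomputable def ext (f : I → (I →₀ ℕ) → MvPolynomial I K) :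
    L →ₗ[K] Module.End K (MvPolynomial I K) :=
  b.constr K fun i => (basisMonomials I K).constr K (f i)

theorem ext_apply (f : I → (I →₀ ℕ) → MvPolynomial I K) (i : I) (M : I →₀ ℕ) :
    ext b f (b i) (mo K M) = f i M := by
  unfold ext
  rw [Module.Basis.constr_basis]
  have h1 : mo K M = basisMonomials I K M := by rw [coe_basisMonomials]; rfl
  rw [h1, Module.Basis.constr_basis]

/-- `R (b i)` is multiplication by `X i` up to lower terms -/
def AA (R : L →ₗ[K] Module.End K (MvPolynomial I K)) : Prop :=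
  ∀ (i : I) (M : I →₀ ℕ), R (b i) (mo K M) - mo K (M + Finsupp.single i 1) ∈ D K I M.degree

variable {b}

theorem AA_map {R : L →ₗ[K] Module.End K (MvPolynomial I K)} (h : AA b R) (x : L) {k : ℕ}
    {p : MvPolynomial I K} (hp : p ∈ D K I k) : R x p ∈ D K I (k + 1) := by
  refine basis_ind b (fun x => R x p ∈ D K I (k + 1)) ?_ ?_ ?_ ?_ x
  · intro i
    refine D_map (R (b i)) ?_ p hp
    intro M hM
    have e : R (b i) (mo K M) = (R (b i) (mo K M) - mo K (M + Finsupp.single i 1)) +
        mo K (M + Finsupp.single i 1) := by abel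
    rw [e]
    refine Submodule.add_mem _ (D_mono (by omega) (h i M)) (mo_mem ?_)
    rw [degree_single_add]; omega
  · rw [map_zero]; exact Submodule.zero_mem _
  · intro x y hx hy
    rw [map_add]; exact Submodule.add_mem _ hx hy
  · intro c x hx
    rw [map_smul]; exact Submodule.smul_mem _ _ hx

section order

variable [LinearOrder I]

/-- smallest element of the support (or `i`) -/
noncomputable def mn (i : I) (M : I →₀ ℕ) : I :=
  if h : M.support.Nonempty then M.support.min' h else i

/-- recursion step -/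
noncomputable def stepf (b : Module.Basis I K L) (R : L →ₗ[K] Module.End K (MvPolynomial I K))
    (i : I) (M : I →₀ ℕ) : MvPolynomial I K := by
  classical
  exact if ∀ k ∈ M.support, i ≤ k then mo K (M + Finsupp.single i 1)
    else mo K (M + Finsupp.single i 1)
      + R (b (mn i M)) (R (b i) (mo K (M - Finsupp.single (mn i M) 1)) -
          mo K (M - Finsupp.single (mn i M) 1 + Finsupp.single i 1))
      + R ⁅b i, b (mn i M)⁆ (mo K (M - Finsupp.single (mn i M) 1))

/-- facts on the decomposition -/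
theorem decomp {i : I} {M : I →₀ ℕ} (h : ¬ ∀ k ∈ M.support, i ≤ k) :
    ∃ (j : I) (N : I →₀ ℕ), mn i M = j ∧ M - Finsupp.single (mn i M) 1 = N ∧
      M = N + Finsupp.single j 1 ∧ j < i ∧ (∀ k ∈ M.support, j ≤ k) ∧ (∀ k ∈ N.support, j ≤ k) := by
  push Not at h
  obtain ⟨k, hk, hki⟩ := h
  have hne : M.support.Nonempty := ⟨k, hk⟩
  have hmn : mn i M = M.support.min' hne := by unfold mn; rw [dif_pos hne]
  have hmem : mn i M ∈ M.support := by rw [hmn]; exact Finset.min'_mem _ _
  have hmin : ∀ k ∈ M.support, mn i M ≤ k := by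
    intro k hk; rw [hmn]; exact Finset.min'_le _ _ hk
  have hle : Finsupp.single (mn i M) 1 ≤ M := by
    rw [Finsupp.single_le_iff]
    exact Nat.one_le_iff_ne_zero.2 (Finsupp.mem_support_iff.1 hmem)
  refine ⟨mn i M, M - Finsupp.single (mn i M) 1, rfl, rfl, (tsub_add_cancel_of_le hle).symm,
    (hmin k hk).trans_lt hki, hmin, ?_⟩
  intro k hk
  refine hmin k ?_
  rw [Finsupp.mem_support_iff] at hk ⊢
  intro h0
  apply hk
  rw [Finsupp.tsub_apply, h0, Nat.zero_sub]

theorem stepf_congr {R R' : L →ₗ[K] Module.End K (MvPolynomial I K)} (hA : AA b R) {k : ℕ}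
    (h : ∀ x, ∀ p ∈ D K I k, R x p = R' x p) (i : I) {M : I →₀ ℕ} (hM : M.degree ≤ k + 1) :
    stepf b R i M = stepf b R' i M := by
  unfold stepf
  by_cases hc : ∀ l ∈ M.support, i ≤ l
  · rw [if_pos hc, if_pos hc]
  · rw [if_neg hc, if_neg hc]
    obtain ⟨j, N, e1, e2, e3, _⟩ := decomp hc
    rw [e2, e1]
    have hN : N.degree ≤ k := by
      rw [e3, degree_single_add] at hM; omega
    rw [← h (b i) _ (mo_mem hN), ← h ⁅b i, b j⁆ _ (mo_mem hN),
      ← h (b j) _ (D_mono hN (hA i N))]

/-- the recursion operator -/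
noncomputable def step (b : Module.Basis I K L) (R : L →ₗ[K] Module.End K (MvPolynomial I K)) :
    L →ₗ[K] Module.End K (MvPolynomial I K) := ext b (stepf b R)

theorem step_AA {R : L →ₗ[K] Module.End K (MvPolynomial I K)} (hA : AA b R) :
    AA b (step b R) := by
  intro i M
  unfold step
  rw [ext_apply]
  unfold stepf
  by_cases hc : ∀ l ∈ M.support, i ≤ l
  · rw [if_pos hc, sub_self]; exact Submodule.zero_mem _
  · rw [if_neg hc]
    obtain ⟨j, N, e1, e2, e3, _⟩ := decomp hc
    rw [e2, e1]
    have hN : M.degree = N.degree + 1 := by rw [e3, degree_single_add]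
    have h1 := AA_map hA (b j) (hA i N)
    have h2 := AA_map hA ⁅b i, b j⁆ (mo_mem (K := K) (le_refl N.degree))
    rw [← hN] at h1 h2
    have e : mo K (M + Finsupp.single i 1)
      + R (b j) (R (b i) (mo K N) - mo K (N + Finsupp.single i 1))
      + R ⁅b i, b j⁆ (mo K N) - mo K (M + Finsupp.single i 1) =
      R (b j) (R (b i) (mo K N) - mo K (N + Finsupp.single i 1))
      + R ⁅b i, b j⁆ (mo K N) := by abel
    rw [e]
    exact Submodule.add_mem _ h1 h2

/-- two maps which agree on the products of basis elements and monomials agree on `D k` -/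
theorem agree {R R' : L →ₗ[K] Module.End K (MvPolynomial I K)} {k : ℕ}
    (h : ∀ (i : I) (M : I →₀ ℕ), M.degree ≤ k → R (b i) (mo K M) = R' (b i) (mo K M)) :
    ∀ x, ∀ p ∈ D K I k, R x p = R' x p := by
  intro x p hp
  refine basis_ind b (fun x => R x p = R' x p) ?_ ?_ ?_ ?_ x
  · intro i
    exact D_eq (R (b i)) (R' (b i)) (h i) p hp
  · rw [map_zero, map_zero]
  · intro x y hx hy
    rw [map_add, map_add, LinearMap.add_apply, LinearMap.add_apply, hx, hy]
  · intro c x hx
    rw [map_smul, map_smul, LinearMap.smul_apply, LinearMap.smul_apply, hx]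

/-- the approximations -/
noncomputable def Rn (b : Module.Basis I K L) : ℕ → L →ₗ[K] Module.End K (MvPolynomial I K)
  | 0 => ext b fun i M => mo K (M + Finsupp.single i 1)
  | n + 1 => step b (Rn b n)

theorem Rn_AA (n : ℕ) : AA b (Rn b n) := by
  induction n with
  | zero =>
    intro i M
    unfold Rn
    rw [ext_apply, sub_self]; exact Submodule.zero_mem _
  | succ n ih => exact step_AA ih

theorem Rn_stab (n : ℕ) : ∀ x, ∀ p ∈ D K I n, Rn b n x p = Rn b (n + 1) x p := by
  induction n with
  | zero =>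
    refine agree (b := b) ?_
    intro i M hM
    have hM0 : M = 0 := by
      rw [← Finsupp.degree_eq_zero_iff]; omega
    subst hM0
    change ext b _ (b i) (mo K 0) = ext b _ (b i) (mo K 0)
    rw [ext_apply, ext_apply]
    unfold stepf
    rw [if_pos (by simp)]
  | succ n ih =>
    refine agree (b := b) ?_
    intro i M hM
    change ext b _ (b i) (mo K M) = ext b _ (b i) (mo K M)
    rw [ext_apply, ext_apply]
    exact stepf_congr (Rn_AA n) ih i hM

theorem Rn_le {m n : ℕ} (h : m ≤ n) : ∀ x, ∀ p ∈ D K I m, Rn b m x p = Rn b n x p := by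
  induction n, h using Nat.le_induction with
  | base => intro x p _; rfl
  | succ n hmn ih =>
    intro x p hp
    rw [ih x p hp]
    exact Rn_stab n x p (D_mono hmn hp)

/-- the representation -/
noncomputable def rho (b : Module.Basis I K L) : L →ₗ[K] Module.End K (MvPolynomial I K) :=
  ext b fun i M => Rn b M.degree (b i) (mo K M)

theorem rho_eq (n : ℕ) : ∀ x, ∀ p ∈ D K I n, rho b x p = Rn b n x p := by
  refine agree (b := b) ?_
  intro i M hM
  unfold rho
  rw [ext_apply]
  exact Rn_le hM (b i) (mo K M) (mo_mem le_rfl)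

theorem rho_AA : AA b (rho b) := by
  intro i M
  rw [rho_eq M.degree (b i) (mo K M) (mo_mem le_rfl)]
  exact Rn_AA _ i M

theorem rho_step (i : I) (M : I →₀ ℕ) : rho b (b i) (mo K M) = stepf b (rho b) i M := by
  rw [rho_eq (M.degree + 1) (b i) (mo K M) (mo_mem (by omega))]
  change ext b _ (b i) (mo K M) = _
  rw [ext_apply]
  refine stepf_congr (Rn_AA _) (k := M.degree) ?_ i (by omega)
  intro x p hp
  exact (rho_eq M.degree x p hp).symm

theorem rho1 {i : I} {M : I →₀ ℕ} (h : ∀ k ∈ M.support, i ≤ k) :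
    rho b (b i) (mo K M) = mo K (M + Finsupp.single i 1) := by
  rw [rho_step]
  unfold stepf
  rw [if_pos h]

theorem supp_single {N : I →₀ ℕ} {i k : I} (h : k ∈ (N + Finsupp.single i 1).support) :
    k ∈ N.support ∨ k = i := by
  classical
  have h1 := Finsupp.support_add h
  rw [Finset.mem_union] at h1
  rcases h1 with h1 | h1
  · exact Or.inl h1
  · have := Finsupp.support_single_subset h1
    rw [Finset.mem_singleton] at this
    exact Or.inr this

theorem mem_supp_single (N : I →₀ ℕ) (j : I) : j ∈ (N + Finsupp.single j 1).support := by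
  rw [Finsupp.mem_support_iff, Finsupp.add_apply, Finsupp.single_eq_same]
  omega

theorem rho2 {i j : I} {N : I →₀ ℕ} (hji : j < i) (h : ∀ k ∈ N.support, j ≤ k) :
    rho b (b i) (rho b (b j) (mo K N)) =
      rho b (b j) (rho b (b i) (mo K N)) + rho b ⁅b i, b j⁆ (mo K N) := by
  rw [rho1 h, rho_step]
  have hc : ¬ ∀ k ∈ (N + Finsupp.single j 1).support, i ≤ k := by
    intro h1
    exact absurd (h1 j (mem_supp_single N j)) (not_le.2 hji)
  unfold stepf
  rw [if_neg hc]
  obtain ⟨j', N', e1, e2, e3, _, e5, _⟩ := decomp hc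
  have hj1 : j' ≤ j := e5 j (mem_supp_single N j)
  have hj2 : j ≤ j' := by
    have h1 : j' ∈ (N + Finsupp.single j 1).support := by
      rw [e3]; exact mem_supp_single N' j'
    rcases supp_single h1 with h2 | h2
    · exact h j' h2
    · exact h2.ge
  have hj : j' = j := le_antisymm hj1 hj2
  subst hj
  have hN : N' = N := (add_right_cancel e3).symm
  rw [e2, e1, hN, map_sub]
  have h2 : rho b (b j') (mo K (N + Finsupp.single i 1)) =
      mo K (N + Finsupp.single j' 1 + Finsupp.single i 1) := by
    rw [rho1]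
    · congr 1; abel
    · intro k hk
      rcases supp_single hk with h3 | h3
      · exact h k h3
      · rw [h3]; exact hji.le
  rw [h2]
  abel

/-- the commutation relation in degree at most `n` -/
def CC (b : Module.Basis I K L) (n : ℕ) : Prop := ∀ x y, ∀ p ∈ D K I n,
  rho b x (rho b y p) = rho b y (rho b x p) + rho b ⁅x, y⁆ p

theorem CC_of (n : ℕ) (h : ∀ (i j : I) (M : I →₀ ℕ), M.degree ≤ n → j < i →
    rho b (b i) (rho b (b j) (mo K M)) =
      rho b (b j) (rho b (b i) (mo K M)) + rho b ⁅b i, b j⁆ (mo K M)) : CC b n := by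
  have h1 : ∀ (i j : I) (M : I →₀ ℕ), M.degree ≤ n →
      rho b (b i) (rho b (b j) (mo K M)) =
        rho b (b j) (rho b (b i) (mo K M)) + rho b ⁅b i, b j⁆ (mo K M) := by
    intro i j M hM
    rcases lt_trichotomy j i with hji | hji | hji
    · exact h i j M hM hji
    · subst hji
      rw [lie_self, map_zero, LinearMap.zero_apply, add_zero]
    · have h2 := h j i M hM hji
      rw [h2, ← lie_skew (b j) (b i), map_neg, LinearMap.neg_apply]
      abel
  have h2 : ∀ (i j : I), ∀ p ∈ D K I n, rho b (b i) (rho b (b j) p) =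
      rho b (b j) (rho b (b i) p) + rho b ⁅b i, b j⁆ p := by
    intro i j p hp
    exact D_eq ((rho b (b i)) ∘ₗ (rho b (b j)))
      ((rho b (b j)) ∘ₗ (rho b (b i)) + rho b ⁅b i, b j⁆) (fun M hM => h1 i j M hM) p hp
  intro x y p hp
  refine basis_ind b (fun x => ∀ y, rho b x (rho b y p) =
    rho b y (rho b x p) + rho b ⁅x, y⁆ p) ?_ ?_ ?_ ?_ x y
  · intro i y
    refine basis_ind b (fun y => rho b (b i) (rho b y p) =
      rho b y (rho b (b i) p) + rho b ⁅b i, y⁆ p) ?_ ?_ ?_ ?_ y
    · intro j; exact h2 i j p hp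
    · simp
    · intro y y' hy hy'
      simp only [map_add, LinearMap.add_apply, lie_add, hy, hy']
      abel
    · intro c y hy
      simp only [map_smul, LinearMap.smul_apply, lie_smul, hy, smul_add]
  · intro y; simp
  · intro x x' hx hx' y
    simp only [map_add, LinearMap.add_apply, add_lie, hx, hx']
    abel
  · intro c x hx y
    simp only [map_smul, LinearMap.smul_apply, smul_lie, hx, smul_add]

/-- the main display of the classical proof -/
theorem key {i j k : I} {P : I →₀ ℕ} (hk : ∀ l ∈ P.support, k ≤ l) (hki : k < i) (hkj : k < j)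
    (ih : CC b P.degree) :
    rho b (b i) (rho b (b j) (mo K (P + Finsupp.single k 1))) =
      rho b (b k) (rho b (b i) (rho b (b j) (mo K P))) + rho b ⁅b i, b k⁆ (rho b (b j) (mo K P)) +
      (rho b ⁅b j, b k⁆ (rho b (b i) (mo K P)) + rho b ⁅b i, ⁅b j, b k⁆⁆ (mo K P)) := by
  have hP : mo K P ∈ D K I P.degree := mo_mem le_rfl
  have h1 : rho b (b j) (mo K (P + Finsupp.single k 1)) =
      rho b (b k) (rho b (b j) (mo K P)) + rho b ⁅b j, b k⁆ (mo K P) := by
    rw [← rho1 (b := b) hk]
    exact ih (b j) (b k) _ hP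
  have h2 : rho b (b i) (rho b (b k) (rho b (b j) (mo K P))) =
      rho b (b k) (rho b (b i) (rho b (b j) (mo K P))) +
        rho b ⁅b i, b k⁆ (rho b (b j) (mo K P)) := by
    have hw : rho b (b j) (mo K P) - mo K (P + Finsupp.single j 1) ∈ D K I P.degree := rho_AA j P
    have e : rho b (b j) (mo K P) = mo K (P + Finsupp.single j 1) +
        (rho b (b j) (mo K P) - mo K (P + Finsupp.single j 1)) := by abel
    have h3 := ih (b i) (b k) _ hw
    have h4 := rho2 (b := b) (N := P + Finsupp.single j 1) hki (by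
      intro l hl
      rcases supp_single hl with h5 | h5
      · exact hk l h5
      · rw [h5]; exact hkj.le)
    rw [e]
    simp only [map_add]
    rw [h3, h4]
    abel
  rw [h1, map_add, h2, ih (b i) ⁅b j, b k⁆ _ hP]

theorem main (n : ℕ) : CC b n := by
  induction n using Nat.strong_induction_on with
  | _ n IH =>
    refine CC_of n ?_
    intro i j M hM hji
    by_cases hc : ∀ l ∈ M.support, j ≤ l
    · exact rho2 hji hc
    · obtain ⟨k, P, _, _, e3, hkj, _, hkP⟩ := decomp hc
      have hdeg : P.degree < n := by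
        rw [e3, degree_single_add] at hM; omega
      have ih := IH P.degree hdeg
      have hP : mo K P ∈ D K I P.degree := mo_mem le_rfl
      have hki : k < i := hkj.trans hji
      rw [e3, key hkP hki hkj ih, key hkP hkj hki ih]
      have h1 := ih (b i) (b j) _ hP
      have h2 := ih (b k) ⁅b i, b j⁆ _ hP
      rw [rho1 hkP] at h2
      have hj : ⁅b k, ⁅b i, b j⁆⁆ + ⁅b i, ⁅b j, b k⁆⁆ = ⁅b j, ⁅b i, b k⁆⁆ := by
        have := lie_jacobi (b k) (b i) (b j)
        rw [← lie_skew (b i) (b k), lie_neg]
        rw [← sub_eq_zero, sub_neg_eq_add]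
        exact this
      rw [h1, map_add, h2]
      have h3 : rho b ⁅b j, ⁅b i, b k⁆⁆ (mo K P) = rho b ⁅b k, ⁅b i, b j⁆⁆ (mo K P) +
          rho b ⁅b i, ⁅b j, b k⁆⁆ (mo K P) := by
        rw [← hj, map_add, LinearMap.add_apply]
      rw [h3]
      abel

end order

end PBWaux

open PBWaux in
theorem t_PBW : S_PBW := by
  intro K _ L _ _ I _ b
  refine ⟨rho b, ?_, ?_⟩
  · intro x y
    refine LinearMap.ext fun p => ?_
    have h := main (b := b) p.totalDegree x y p (mem_D_totalDegree p)
    rw [LinearMap.sub_apply, Module.End.mul_apply, Module.End.mul_apply, h]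
    abel
  · intro i p
    refine totalDegree_le_of_mem ?_
    have h := D_map (K := K) (I := I)
      (rho b (b i) - LinearMap.mulLeft K (MvPolynomial.X i : MvPolynomial I K))
      (k := p.totalDegree) (l := p.totalDegree) ?_ p (mem_D_totalDegree p)
    · simpa using h
    · intro M hM
      rw [LinearMap.sub_apply, LinearMap.mulLeft_apply, X_mul_mo]
      exact D_mono hM (rho_AA i M)

end H67OL
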